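import Pool.Statements.S00818
import Pool.Agent.MP_181f73_al.H78.NoPrim

set_option autoImplicit false
open Pool Pool.MP_181f73_al

namespace Pool.Agent.S00818

open Pool.Agent.MP_181f73_al.H78 in
/-- The negation of the preceding statement: Every bounded 3-cocycle of the free group on two generators with values in ell^2 of the group (left regular action) is the coboundary of a bounded 2-cochain, i.e. the third bounded cohomology with ell^2 coefficients vanishes. -/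
theorem result :
    ¬ (∀ f : FreeGroup (Fin 2) → FreeGroup (Fin 2) → FreeGroup (Fin 2) → FreeGroup (Fin 2) → ℝ,
      (∀ a b c, Summable (fun x => (f a b c x) ^ 2)) →
      (∃ C : ℝ, ∀ a b c, ∑' x, (f a b c x) ^ 2 ≤ C) →
      (∀ g₁ g₂ g₃ g₄ x : FreeGroup (Fin 2),
        f g₂ g₃ g₄ (g₁⁻¹ * x) - f (g₁ * g₂) g₃ g₄ x + f g₁ (g₂ * g₃) g₄ x
          - f g₁ g₂ (g₃ * g₄) x + f g₁ g₂ g₃ x = 0) →
      ∃ h : FreeGroup (Fin 2) → FreeGroup (Fin 2) → FreeGroup (Fin 2) → ℝ,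
        (∀ a b, Summable (fun x => (h a b x) ^ 2)) ∧
        (∃ C : ℝ, ∀ a b, ∑' x, (h a b x) ^ 2 ≤ C) ∧
        ∀ g₁ g₂ g₃ x : FreeGroup (Fin 2),
          f g₁ g₂ g₃ x = h g₂ g₃ (g₁⁻¹ * x) - h (g₁ * g₂) g₃ x + h g₁ (g₂ * g₃) x - h g₁ g₂ x) := by
  classical
  intro hall
  have fin : ∀ (a b c : G) (T : Finset G),
      ∑ x ∈ T, phi (x⁻¹ * 1) (x⁻¹ * a) (x⁻¹ * (a * b)) (x⁻¹ * (a * b * c)) ^ 2 ≤ 49152 := by
    intro a b c T
    have := phi_sum 1 a (a * b) (a * b * c) (T.image (fun x => x⁻¹))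
    rwa [Finset.sum_image (fun x _ y _ h => inv_injective h)] at this
  obtain ⟨h, hs, ⟨B, hB⟩, hd⟩ := hall
    (fun a b c x => phi (x⁻¹ * 1) (x⁻¹ * a) (x⁻¹ * (a * b)) (x⁻¹ * (a * b * c)))
    (fun a b c => summable_of_sum_le (fun x => by positivity) (fin a b c))
    ⟨49152, fun a b c => Real.tsum_le_of_sum_le (fun x => by positivity) (fin a b c)⟩
    (by
      intro g₁ g₂ g₃ g₄ x
      simp only [mul_inv_rev, inv_inv, mul_one, mul_assoc, phi]
      ring)
  refine no_primitive (ψ := fun y0 y1 y2 => h (y0⁻¹ * y1) (y1⁻¹ * y2) y0⁻¹) (B := B) ?_ ?_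
  · intro x0 x1 x2 T
    have e : ∀ (g y z : G), (g * y)⁻¹ * (g * z) = y⁻¹ * z := fun g y z => by group
    simp only [e]
    have h1 := (hs (x0⁻¹ * x1) (x1⁻¹ * x2)).sum_le_tsum (T.image (fun g => (g * x0)⁻¹))
      (fun x _ => by positivity)
    rw [Finset.sum_image (fun x _ y _ h => mul_right_cancel (inv_injective h))] at h1
    exact h1.trans (hB _ _)
  · intro y0 y1 y2 y3
    have := hd (y0⁻¹ * y1) (y1⁻¹ * y2) (y2⁻¹ * y3) y0⁻¹
    simp only [inv_inv, mul_one, mul_assoc, mul_inv_cancel_left, mul_inv_rev, mul_inv_cancel] at this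
    exact this

end Pool.Agent.S00818
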