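import Pool.Statements.S01123
import Pool.Agent.MP_3312ae_al.HR.Asm.ProP
import Pool.Agent.MP_3312ae_al.HR.B.Herfort

set_option autoImplicit false
open Pool Pool.MP_3312ae_al

namespace Pool.Agent.S01123

/-- Every compact Hausdorff topological group that has elements of finite order at least n for every n must contain an element of infinite order. -/
theorem result :
    ∀ (G : Type) [Group G] [TopologicalSpace G] [IsTopologicalGroup G]
      [CompactSpace G] [T2Space G],
      (∀ n : ℕ, ∃ g : G, 0 < orderOf g ∧ n ≤ orderOf g) →
      ∃ g : G, orderOf g = 0 := by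
  exact Pool.Agent.MP_3312ae_al.HR.main_of_herfort Pool.Agent.MP_3312ae_al.HR.herfort

end Pool.Agent.S01123
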