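import Pool.Statements.S01212
import Pool.Agent.MP_394f71_al.H79.Poly

set_option autoImplicit false
open Pool Pool.MP_394f71_al

namespace Pool.Agent.S01212

/-- The negation of the preceding statement: Whenever a two-variable word v turns the set of a group G into a group via x⊙y = v(x,y), the new group satisfies every law (identity) that G satisfies, i.e. lies in the variety generated by G. -/
theorem result :
    ¬ (∀ (G H : Type) [Group G] [Group H] (e : H ≃ G) (v : FreeGroup (Fin 2)),
      (∀ a b : H, e (a * b) = FreeGroup.lift (![e a, e b] : Fin 2 → G) v) →
      ∀ w : FreeGroup ℕ,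
        (∀ f : ℕ → G, FreeGroup.lift f w = 1) →
        ∀ f : ℕ → H, FreeGroup.lift f w = 1) := by
  exact Pool.Agent.MP_394f71_al.H79.final

end Pool.Agent.S01212
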