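import Pool.Statements.S02249
import Pool.Agent.MP_8fc759_al.H44.Exists

set_option autoImplicit false
open Pool Pool.MP_8fc759_al

namespace Pool.Agent.S02249

/-- For every free group F on an infinite basis, some IA-automorphism α of F has normal closure in Aut F equal to the set of all IA-automorphisms of F, i.e. those β with β(x)x⁻¹ in [F,F] for all x. -/
theorem result :
    ∀ (X : Type) [Infinite X], ∃ α : MulAut (FreeGroup X),
      (∀ x : FreeGroup X, α x * x⁻¹ ∈ commutator (FreeGroup X)) ∧
      (∀ β : MulAut (FreeGroup X),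
        (β ∈ Subgroup.normalClosure ({α} : Set (MulAut (FreeGroup X))) ↔
          ∀ x : FreeGroup X, β x * x⁻¹ ∈ commutator (FreeGroup X))) := by
  intro X _
  open Pool.Agent.MP_8fc759_al.H44 in
  obtain ⟨α, hα, -⟩ := exists_generic_pair (1 : Aut X) IA.one
  open Pool.Agent.MP_8fc759_al.H44 in
  refine ⟨α, IA_iff.1 hα.1, fun β => ⟨fun hβ => IA_iff.1 ?_, fun hβ => ?_⟩⟩
  · open Pool.Agent.MP_8fc759_al.H44 in
    let N : Subgroup (Aut X) :=
      { carrier := {γ | IA γ}
        one_mem' := IA.one
        mul_mem' := IA.mul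
        inv_mem' := IA.inv }
    have hN : N.Normal := ⟨fun γ hγ π => hγ.conj π⟩
    exact Subgroup.normalClosure_le_normal (N := N) (Set.singleton_subset_iff.2 hα.1) hβ
  · open Pool.Agent.MP_8fc759_al.H44 in
    obtain ⟨γ, h1, h2⟩ := exists_generic_pair β (IA_iff.2 hβ)
    obtain ⟨π, hπ⟩ := hα.conj h1
    obtain ⟨ρ, hρ⟩ := hα.conj h2
    have hm : α ∈ Subgroup.normalClosure ({α} : Set (MulAut (FreeGroup X))) :=
      Subgroup.subset_normalClosure rfl
    have e : β = γ⁻¹ * (γ * β) := (inv_mul_cancel_left γ β).symm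
    rw [e, hρ, hπ]
    exact Subgroup.mul_mem _
      (Subgroup.inv_mem _ (Subgroup.normalClosure_normal.conj_mem α hm π))
      (Subgroup.normalClosure_normal.conj_mem α hm ρ)

end Pool.Agent.S02249
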