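import Pool.Statements.S02857
import Pool.Agent.MP_b9845b_al.H94.Final

set_option autoImplicit false
open Pool Pool.MP_b9845b_al

namespace Pool.Agent.S02857

/-- Every group with n generators and one relator admits a finite alphabet and finite rule set whose string rewriting is terminating and confluent, with a letter map to G that is onto and identifies exactly the words equivalent under the rules. -/
theorem result :
    ∀ (n : ℕ) (r : FreeGroup (Fin n)),
      ∃ (m : ℕ) (R : Finset (List (Fin m) × List (Fin m)))
        (φ : Fin m → PresentedGroup ({r} : Set (FreeGroup (Fin n)))),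
        WellFounded (fun v u : List (Fin m) =>
            ∃ x y : List (Fin m), ∃ p ∈ R, u = x ++ p.1 ++ y ∧ v = x ++ p.2 ++ y) ∧
        (∀ a b c : List (Fin m),
            Relation.ReflTransGen (fun u v : List (Fin m) =>
              ∃ x y : List (Fin m), ∃ p ∈ R, u = x ++ p.1 ++ y ∧ v = x ++ p.2 ++ y) a b →
            Relation.ReflTransGen (fun u v : List (Fin m) =>
              ∃ x y : List (Fin m), ∃ p ∈ R, u = x ++ p.1 ++ y ∧ v = x ++ p.2 ++ y) a c →
            Relation.Join (Relation.ReflTransGen (fun u v : List (Fin m) =>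
              ∃ x y : List (Fin m), ∃ p ∈ R, u = x ++ p.1 ++ y ∧ v = x ++ p.2 ++ y)) b c) ∧
        (∀ g : PresentedGroup ({r} : Set (FreeGroup (Fin n))),
            ∃ w : List (Fin m), (w.map φ).prod = g) ∧
        (∀ u v : List (Fin m),
            (u.map φ).prod = (v.map φ).prod ↔
              Relation.ReflTransGen (fun a b : List (Fin m) =>
                (∃ x y : List (Fin m), ∃ p ∈ R, a = x ++ p.1 ++ y ∧ b = x ++ p.2 ++ y) ∨
                (∃ x y : List (Fin m), ∃ p ∈ R, b = x ++ p.1 ++ y ∧ a = x ++ p.2 ++ y)) u v) := by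
  intro n r
  obtain ⟨S₀⟩ := MP_b9845b_al.H94.exists_sys (MP_b9845b_al.H94.isOR_presented r)
  let S := S₀.relabel (Finite.equivFin S₀.A)
  obtain ⟨R, hR⟩ : ∃ R : Finset (List (Fin (Nat.card S₀.A)) × List (Fin (Nat.card S₀.A))),
      (R : Set _) = S.R := ⟨S.Rfin.toFinset, S.Rfin.coe_toFinset⟩
  refine ⟨Nat.card S₀.A, R, S.φ, ?_, ?_, S.surj, ?_⟩
  · have := S.wf
    rw [← hR] at this
    exact this
  · have := @MP_b9845b_al.H94.Sys.confluent _ _ S
    rw [← hR] at this
    exact fun a b c h1 h2 => this h1 h2
  · have := S.ev_eq_iff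
    rw [← hR] at this
    exact this

end Pool.Agent.S02857
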