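import Pool.Statements.S02894
import Pool.Agent.MP_bcc2ed_al.H66.Main

set_option autoImplicit false
open Pool Pool.MP_bcc2ed_al

namespace Pool.Agent.S02894

/-- Symmetric numerical semigroups of embedding dimension 8 have minimal presentations of
unbounded size. -/
theorem result :
    ¬ (∃ B : ℕ → ℕ, ∀ (S : AddSubmonoid ℕ),
      (∃ F : ℤ, ∀ x : ℤ, (∃ m ∈ S, (m : ℤ) = x) ↔ ¬ ∃ m ∈ S, (m : ℤ) = F - x) →
      ∀ (e : ℕ) (n : Fin e → ℕ), Function.Injective n →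
        Set.range n = {x : ℕ | x ∈ S ∧ x ≠ 0 ∧ ∀ a ∈ S, ∀ b ∈ S, a + b = x → a = 0 ∨ b = 0} →
        ∃ ρ : Finset ((Fin e → ℕ) × (Fin e → ℕ)), ρ.card ≤ B e ∧
          ∀ a b : Fin e → ℕ,
            addConGen (fun u v : Fin e → ℕ => (u, v) ∈ ρ) a b ↔
              ∑ i, a i * n i = ∑ i, b i * n i) := by
  rintro ⟨B, hB⟩
  obtain ⟨r, hr⟩ : ∃ r : ℕ, r = B 8 + 4 := ⟨_, rfl⟩
  obtain ⟨τ, hτ⟩ : ∃ τ : ℕ, τ = (B 8 + 4) * (B 8 + 3) := ⟨_, rfl⟩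
  have hτ' : (τ : ℤ) = r * r - r := by rw [hτ, hr]; push_cast; ring
  have h1 : r + 1 < τ := by rw [hτ, hr]; nlinarith
  obtain ⟨a, ha, hF⟩ := Pool.Agent.MP_bcc2ed_al.H66.exists_symmetric r τ (by omega) hτ'
  have h2 : τ < τ * r := by nlinarith
  have h3 : τ * r + (τ * r + τ) + (2 * (τ * r) + 1) < a := by nlinarith
  obtain ⟨ρ, hc, hρ⟩ := hB _ hF 8 _
    (Pool.Agent.MP_bcc2ed_al.H66.gens_inj (a := a) (by omega) h2)
    (Pool.Agent.MP_bcc2ed_al.H66.range_gens h3)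
  have := Pool.Agent.MP_bcc2ed_al.H66.card_lower h1 ha ρ hρ
  omega

end Pool.Agent.S02894
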