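import Pool.Statements.S02911
import Pool.Agent.MP_bd94e8_al.H83A.Fin

set_option autoImplicit false
open Pool Pool.MP_bd94e8_al

namespace Pool.Agent.S02911

/-- Every artin algebra with infinitely many non-isomorphic indecomposable finitely generated modules has an indecomposable, non-finitely-generated module that has finite length as a module over its own endomorphism ring. -/
theorem result :
    ∀ (R : Type) [CommRing R] [IsArtinianRing R] (A : Type) [Ring A] [Algebra R A]
      [Module.Finite R A],
      (∀ (n : ℕ) (N : Fin n → Type) [∀ i, AddCommGroup (N i)] [∀ i, Module A (N i)],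
        ∃ (M : Type) (_ : AddCommGroup M) (_ : Module A M),
          Module.Finite A M ∧ Nontrivial M ∧
          (∀ P Q : Submodule A M, IsCompl P Q → P = ⊥ ∨ Q = ⊥) ∧
          ∀ i, IsEmpty (M ≃ₗ[A] N i)) →
      ∃ (G : Type) (_ : AddCommGroup G) (_ : Module A G),
        Nontrivial G ∧
        (∀ P Q : Submodule A G, IsCompl P Q → P = ⊥ ∨ Q = ⊥) ∧
        ¬ Module.Finite A G ∧
        IsNoetherian (Module.End A G) G ∧ IsArtinian (Module.End A G) G := by
  exact Pool.Agent.MP_bd94e8_al.H89.last Pool.Agent.MP_bd94e8_al.H83A.fin_all

end Pool.Agent.S02911
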