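import Pool.Statements.S03562
import Pool.Agent.MP_f5ca18_al.H67.Main

set_option autoImplicit false
open CategoryTheory CategoryTheory.Limits MonoidalCategory
open scoped MonoidalCategory
open Pool Pool.MP_f5ca18_al

namespace Pool.Agent.S03562

/-- The negation of the preceding statement: Some real a is a limit from above of Frobenius–Perron dimensions: for every ε>0 some object of some complex fusion category has FP dimension strictly between a and a+ε. -/
theorem result :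
    ¬ (∃ a : ℝ, ∀ ε : ℝ, 0 < ε → ∃ x : ℝ, a < x ∧ x < a + ε ∧
      ∃ (C : Type) (_ : Category.{0} C) (_ : Abelian C) (_ : Linear ℂ C)
        (_ : MonoidalCategory C) (_ : MonoidalPreadditive C) (_ : MonoidalLinear ℂ C)
        (_ : RigidCategory C) (n : ℕ) (S : Fin n → C),
        (∀ X Y : C, FiniteDimensional ℂ (X ⟶ Y)) ∧
        Simple (𝟙_ C) ∧
        (∀ i, Simple (S i)) ∧
        (∀ i j, Nonempty (S i ≅ S j) → i = j) ∧
        (∀ Y : C, Simple Y → ∃ i, Nonempty (Y ≅ S i)) ∧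
        (∀ (X Y : C) (f : Y ⟶ X), Mono f → ∃ g : X ⟶ Y, f ≫ g = 𝟙 Y) ∧
        ∃ (d : Fin n → ℝ) (X : C),
          (∀ i, 0 < d i) ∧
          (∀ i j, d i * d j = ∑ k, (Module.finrank ℂ (S k ⟶ S i ⊗ S j) : ℝ) * d k) ∧
          x = ∑ i, (Module.finrank ℂ (S i ⟶ X) : ℝ) * d i) := by
  rintro ⟨a, h⟩
  obtain ⟨ε, hε, hno⟩ := Pool.Agent.MP_f5ca18_al.H67.no_acc_dim a
  obtain ⟨x, hax, hxa, C, _, _, _, _, _, _, _, n, S, h1, h2, h3, h4, h5, h6, d, X, h7, h8, rfl⟩ :=
    h ε hε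
  exact absurd hxa (not_lt.2 (hno C ⟨n, S, d, h1, h2, h3, h4, h5, h6, h7, h8⟩ X hax))

end Pool.Agent.S03562
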