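import Pool.Statements.S03582
import Pool.Agent.MP_f7bb97_al.H87.Tensor

set_option autoImplicit false
open Pool Pool.MP_f7bb97_al

namespace Pool.Agent.S03582

/-- The negation of the preceding statement: In every Engel group that admits a bi-invariant total order, every bi-invariant partial order (given by a normal positive cone avoiding 1) extends to a bi-invariant total order; that is, Engel orderable groups are O*-groups. -/
theorem result :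
    ¬ (∀ (G : Type) [Group G],
      (∀ x y : G, ∃ n : ℕ, (fun z : G => z⁻¹ * y⁻¹ * z * y)^[n] x = 1) →
      (∃ Q : Set G, (∀ a ∈ Q, ∀ b ∈ Q, a * b ∈ Q) ∧
          (∀ a ∈ Q, ∀ g : G, g * a * g⁻¹ ∈ Q) ∧ (1 : G) ∉ Q ∧
          (∀ a : G, a ≠ 1 → a ∈ Q ∨ a⁻¹ ∈ Q)) →
      ∀ P : Set G, (∀ a ∈ P, ∀ b ∈ P, a * b ∈ P) →
        (∀ a ∈ P, ∀ g : G, g * a * g⁻¹ ∈ P) → (1 : G) ∉ P →
        ∃ Q : Set G, P ⊆ Q ∧ (∀ a ∈ Q, ∀ b ∈ Q, a * b ∈ Q) ∧
          (∀ a ∈ Q, ∀ g : G, g * a * g⁻¹ ∈ Q) ∧ (1 : G) ∉ Q ∧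
          (∀ a : G, a ≠ 1 → a ∈ Q ∨ a⁻¹ ∈ Q)) := by
  obtain ⟨D⟩ := Pool.Agent.MP_f7bb97_al.H87.exists_data
  exact Pool.Agent.MP_f7bb97_al.H87.criterion D.J D.J_zero D.J_anti D.J_mul D.J_sep D.H D.H_mem
    D.H_engel D.H_nil D.e D.not_inv

end Pool.Agent.S03582
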