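import Pool.Statements.S03609
import Pool.Agent.MP_fb3574_al.H54.Chain

set_option autoImplicit false
open Pool Pool.MP_fb3574_al

namespace Pool.Agent.S03609

/-- Any class of groups closed under isomorphism, subgroups, quotients and restricted direct products, containing all groups with finite derived subgroup and all FC-groups with quasicyclic derived subgroup, contains every FC-group. -/
theorem result :
    ∀ C : (∀ (G : Type) [Group G], Prop),
      (∀ (G H : Type) [Group G] [Group H], (G ≃* H) → C G → C H) →
      (∀ (G : Type) [Group G] (H : Subgroup G), C G → C ↥H) →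
      (∀ (G : Type) [Group G] (N : Subgroup G) [N.Normal], C G → C (G ⧸ N)) →
      (∀ (ι : Type) [DecidableEq ι] (G : ι → Type) [∀ i, Group (G i)],
        (∀ i, C (G i)) → C ↥(⨆ i, (MonoidHom.mulSingle G i).range)) →
      (∀ (G : Type) [Group G], Finite ↥(commutator G) → C G) →
      (∀ (G : Type) [Group G], (∀ g : G, {h : G | IsConj g h}.Finite) →
        (∃ p : ℕ, p.Prime ∧
          Nonempty (↥(commutator G) ≃* ↥(⨆ n : ℕ, rootsOfUnity (p ^ n) ℂ))) → C G) →
      ∀ (G : Type) [Group G], (∀ g : G, {h : G | IsConj g h}.Finite) → C G := by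
  intro C h1 h2 h3 h4 h5 _ G _ hG
  exact Pool.Agent.MP_fb3574_al.H54.DV.of_fc ⟨h1, h2, h3, h4, h5⟩ _ G hG rfl

end Pool.Agent.S03609
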