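import Pool.Statements.S03910
import Pool.Agent.MP_161a40_an.H4.Main

set_option autoImplicit false
open Pool Pool.MP_161a40_an

namespace Pool.Agent.S03910

/-- The negation of the preceding statement: For all n≥2, normalized injective holomorphic f on the unit ball of C^n and 0<r<1, some domain Ω biholomorphic to C^n contains f(rB), and every function holomorphic on f(rB) is approximable uniformly on its compacta by functions holomorphic on Ω. -/
theorem result :
    ¬ (∀ n : ℕ, 2 ≤ n →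
    ∀ f : EuclideanSpace ℂ (Fin n) → EuclideanSpace ℂ (Fin n),
      DifferentiableOn ℂ f (Metric.ball (0 : EuclideanSpace ℂ (Fin n)) 1) →
      Set.InjOn f (Metric.ball (0 : EuclideanSpace ℂ (Fin n)) 1) →
      f 0 = 0 →
      fderiv ℂ f 0 = ContinuousLinearMap.id ℂ (EuclideanSpace ℂ (Fin n)) →
      ∀ r : ℝ, 0 < r → r < 1 →
      ∃ Ω : Set (EuclideanSpace ℂ (Fin n)),
        IsOpen Ω ∧ IsConnected Ω ∧
        f '' Metric.ball (0 : EuclideanSpace ℂ (Fin n)) r ⊆ Ω ∧
        (∃ g h : EuclideanSpace ℂ (Fin n) → EuclideanSpace ℂ (Fin n),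
          Differentiable ℂ g ∧ Function.Injective g ∧ Set.range g = Ω ∧
          DifferentiableOn ℂ h Ω ∧ ∀ z, h (g z) = z) ∧
        ∀ F : EuclideanSpace ℂ (Fin n) → ℂ,
          DifferentiableOn ℂ F (f '' Metric.ball (0 : EuclideanSpace ℂ (Fin n)) r) →
          ∀ K : Set (EuclideanSpace ℂ (Fin n)),
            K ⊆ f '' Metric.ball (0 : EuclideanSpace ℂ (Fin n)) r → IsCompact K →
            ∀ ε : ℝ, 0 < ε →
              ∃ G : EuclideanSpace ℂ (Fin n) → ℂ,
                DifferentiableOn ℂ G Ω ∧ ∀ z ∈ K, ‖F z - G z‖ < ε) := by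
  intro H
  have δ0 := Pool.Agent.MP_161a40_an.H4.d0_pos
  have δ1 := Pool.Agent.MP_161a40_an.H4.d0_le
  obtain ⟨Ω, hΩ, -, hsub, ⟨g, h, hg, -, hr, hh, hhg⟩, hR⟩ := H 2 le_rfl
    Pool.Agent.MP_161a40_an.H4.ff
    (fun x hx => (Pool.Agent.MP_161a40_an.H4.differentiableAt_ff
      (mem_ball_zero_iff.1 hx)).differentiableWithinAt)
    Pool.Agent.MP_161a40_an.H4.injOn_ff Pool.Agent.MP_161a40_an.H4.ff_zero
    Pool.Agent.MP_161a40_an.H4.fderiv_ff (1 - Pool.Agent.MP_161a40_an.H4.d0 / 32)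
    (by linarith) (by linarith)
  exact Pool.Agent.MP_161a40_an.H4.not_runge hΩ hsub hg hr hh hhg hR

end Pool.Agent.S03910
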