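import Pool.Statements.S04075
import Pool.Agent.MP_249f74_an.H65.Top
import Pool.Agent.MP_249f74_an.H44.Main
import Pool.Agent.MP_249f74_an.H72.All

set_option autoImplicit false
open Pool Pool.MP_249f74_an

namespace Pool.Agent.S04075

/-- For every bounded domain in R^d (d at least 2) with smooth boundary, the set of boundary points with inward unit directions whose billiard orbit, reflecting at each boundary hit, returns to itself after some n steps has (2d-2)-dimensional measure zero. -/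
theorem result :
  ∀ (d : ℕ), 2 ≤ d → ∀ (f : EuclideanSpace ℝ (Fin d) → ℝ),
    ContDiff ℝ ((⊤ : ℕ∞) : WithTop ℕ∞) f →
    Bornology.IsBounded {x : EuclideanSpace ℝ (Fin d) | f x < 0} →
    (∀ x, f x = 0 → gradient f x ≠ 0) →
    MeasureTheory.Measure.hausdorffMeasure ((2 * d - 2 : ℕ) : ℝ)
      {q : EuclideanSpace ℝ (Fin d) × EuclideanSpace ℝ (Fin d) |
        f q.1 = 0 ∧ ‖q.2‖ = 1 ∧ inner ℝ q.2 (gradient f q.1) < 0 ∧
        ∃ n : ℕ, 1 ≤ n ∧ ∃ p u : ℕ → EuclideanSpace ℝ (Fin d),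
          p 0 = q.1 ∧ u 0 = q.2 ∧ p n = q.1 ∧ u n = q.2 ∧
          ∀ k < n, f (p k) = 0 ∧ ‖u k‖ = 1 ∧ inner ℝ (u k) (gradient f (p k)) < 0 ∧
            (∃ t : ℝ, 0 < t ∧ p (k + 1) = p k + t • u k ∧
              ∀ s ∈ Set.Ioo (0 : ℝ) t, f (p k + s • u k) < 0) ∧
            u (k + 1) = u k - (2 * inner ℝ (u k) (gradient f (p (k + 1))) /
                ‖gradient f (p (k + 1))‖ ^ 2) • gradient f (p (k + 1))} = 0 := by
  intro d hd f hf _ _
  refine Pool.Agent.MP_249f74_an.H72.all (fun k ι _ _ _ _ _ h3 => ?_) d hd f hf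
  have : CharZero k := (algebraMap k ℝ).charZero
  have : Nontrivial ι := Fintype.one_lt_card_iff_nontrivial.1 (by omega)
  exact Pool.Agent.MP_249f74_an.H65.fin
    (Pool.Agent.MP_249f74_an.H65.self Pool.Agent.MP_249f74_an.H44.rts)
    Pool.Agent.MP_249f74_an.H44.rone

end Pool.Agent.S04075

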