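import Pool.Statements.S04181
import Pool.Agent.MP_2c8680_an.H64.Main

set_option autoImplicit false
open ComplexConjugate
open Pool Pool.MP_2c8680_an

namespace Pool.Agent.S04181

/-- In the tiling by a convex cyclic quadrilateral and its midpoint reflections, no closed billiard path avoiding vertices and refracting with index minus one at edges has a tile lying in the bounded part of its complement. -/
theorem result :
    ∀ A B C D : ℂ,
      (∃ c : ℂ, ∃ r : ℝ, dist A c = r ∧ dist B c = r ∧ dist C c = r ∧ dist D c = r) →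
      0 < (conj (B - A) * (C - B)).im →
      0 < (conj (C - B) * (D - C)).im →
      0 < (conj (D - C) * (A - D)).im →
      0 < (conj (A - D) * (B - A)).im →
      ∀ n : ℕ, 0 < n → ∀ p : ℕ → ℂ, (∀ i, p (i + n) = p i) →
      (∀ i : ℕ, ∃ s t : ℂ, (s = 1 ∨ s = -1) ∧
          (∃ m k : ℤ, t = (1 - s) / 2 * (A + B) + (m : ℂ) * (A - C) + (k : ℂ) * (B - D)) ∧
          openSegment ℝ (p i) (p (i + 1)) ⊆
            interior ((fun z : ℂ => s * z + t) '' convexHull ℝ {A, B, C, D})) →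
      (∀ i : ℕ, ∃ s t : ℂ, (s = 1 ∨ s = -1) ∧
          (∃ m k : ℤ, t = (1 - s) / 2 * (A + B) + (m : ℂ) * (A - C) + (k : ℂ) * (B - D)) ∧
          ∃ X Y : ℂ, ((X = A ∧ Y = B) ∨ (X = B ∧ Y = C) ∨ (X = C ∧ Y = D) ∨ (X = D ∧ Y = A)) ∧
            p (i + 1) ∈ openSegment ℝ (s * X + t) (s * Y + t) ∧
            ∃ l : ℝ, 0 < l ∧
              (p (i + 2) - p (i + 1)) * conj (Y - X) = (l : ℂ) * (-((Y - X) * conj (p (i + 1) - p i)))) →
      ∀ s t : ℂ, (s = 1 ∨ s = -1) →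
        (∃ m k : ℤ, t = (1 - s) / 2 * (A + B) + (m : ℂ) * (A - C) + (k : ℂ) * (B - D)) →
        ¬ ((fun z : ℂ => s * z + t) '' convexHull ℝ {A, B, C, D} ⊆
            {z : ℂ | z ∉ (⋃ i : ℕ, segment ℝ (p i) (p (i + 1))) ∧
              Bornology.IsBounded
                (connectedComponentIn (⋃ i : ℕ, segment ℝ (p i) (p (i + 1)))ᶜ z)}) := by
  intro A B C D hcyc h1 h2 h3 h4 n hn p hper hT hE s t hs ht
  obtain ⟨o, r, hA, hB, hC, hD⟩ := hcyc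
  rw [Pool.Agent.MP_2c8680_an.H64.cr_eq] at h1 h2 h3 h4
  obtain ⟨Z, hZ⟩ := Pool.Agent.MP_2c8680_an.H64.exists_cyc ⟨A, B, C, D, h1, h2, h3, h4⟩ o r
    hA hB hC hD
  have eA : A = Z.A := by rw [hZ]
  have eB : B = Z.B := by rw [hZ]
  have eC : C = Z.C := by rw [hZ]
  have eD : D = Z.D := by rw [hZ]
  clear hZ
  subst eA eB eC eD
  have hT' : ∀ i, ∃ (b : Bool) (g : ℤ × ℤ),
      openSegment ℝ (p i) (p (i + 1)) ⊆ interior (Z.Tl b g) := by
    intro i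
    obtain ⟨s, t, hs, ⟨m, k, rfl⟩, h⟩ := hT i
    obtain ⟨b, rfl⟩ := Pool.Agent.MP_2c8680_an.H64.exists_sg hs
    exact ⟨b, (m, k), h⟩
  choose ts tg hT'' using hT'
  obtain ⟨b, rfl⟩ := Pool.Agent.MP_2c8680_an.H64.exists_sg hs
  obtain ⟨m, k, rfl⟩ := ht
  refine Z.traj n hn p hper ts tg hT'' (fun i => ?_) b (m, k)
  obtain ⟨s, t, hs, ⟨m, k, rfl⟩, X, Y, hXY, hp, hl⟩ := hE i
  obtain ⟨b, rfl⟩ := Pool.Agent.MP_2c8680_an.H64.exists_sg hs
  rcases hXY with ⟨rfl, rfl⟩ | ⟨rfl, rfl⟩ | ⟨rfl, rfl⟩ | ⟨rfl, rfl⟩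
  · exact ⟨b, (m, k), 0, by rw [Z.pos_vert, Z.pos_vert]; exact hp, hl⟩
  · exact ⟨b, (m, k), 1, by rw [Z.pos_vert, Z.pos_vert]; exact hp, hl⟩
  · exact ⟨b, (m, k), 2, by rw [Z.pos_vert, Z.pos_vert]; exact hp, hl⟩
  · exact ⟨b, (m, k), 3, by rw [Z.pos_vert, Z.pos_vert]; exact hp, hl⟩

end Pool.Agent.S04181
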