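import Pool.Statements.S04419
import Pool.Agent.MP_3d716e_an.H63.Fin

set_option autoImplicit false
open MeasureTheory
open Pool Pool.MP_3d716e_an

namespace Pool.Agent.S04419

/-- For every bounded open simply connected plane set, its buckling eigenvalue (infimum over nonzero smooth compactly supported u of ∫(Δu)²/∫∣∇u∣²) is at least that of the disk of equal area. -/
theorem result :
    ∀ Λ : Set (EuclideanSpace ℝ (Fin 2)) → ℝ,
      (∀ Ω : Set (EuclideanSpace ℝ (Fin 2)),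
        Λ Ω = sInf {q : ℝ | ∃ u : EuclideanSpace ℝ (Fin 2) → ℝ,
          ContDiff ℝ (⊤ : ℕ∞) u ∧ HasCompactSupport u ∧ tsupport u ⊆ Ω ∧ u ≠ 0 ∧
          q = (∫ x, (∑ i : Fin 2, iteratedFDeriv ℝ 2 u x
                  (fun _ => EuclideanSpace.single i (1 : ℝ))) ^ 2) /
              (∫ x, ‖fderiv ℝ u x‖ ^ 2)}) →
      ∀ Ω : Set (EuclideanSpace ℝ (Fin 2)),
        IsOpen Ω → Bornology.IsBounded Ω → SimplyConnectedSpace Ω →
        ∀ r : ℝ, 0 < r →
          volume Ω = volume (Metric.ball (0 : EuclideanSpace ℝ (Fin 2)) r) →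
          Λ (Metric.ball (0 : EuclideanSpace ℝ (Fin 2)) r) ≤ Λ Ω := by
  intro Λ hΛ Ω ho _ _ r r0 hv
  rw [hΛ, hΛ]
  exact Pool.Agent.MP_3d716e_an.H63.main Ω ho r r0 hv

end Pool.Agent.S04419
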