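import Pool.Statements.S04826
import Pool.Agent.MP_60034d_an.H13.Graph

set_option autoImplicit false
open Classical
open Pool Pool.MP_60034d_an

namespace Pool.Agent.S04826

/-- The negation of the preceding statement: For every sequence of bounded-degree edge-expanders with growing size, the l2-sum of their transportation cost spaces (Kantorovich–Rubinstein norms) fails the cotype-q inequality for every finite q and every constant, i.e. has trivial cotype. -/
theorem result :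
    ¬ (∀ (N : ℕ → ℕ) (G : ∀ n, SimpleGraph (Fin (N n))),
    Filter.Tendsto N Filter.atTop Filter.atTop →
    (∃ d : ℕ, ∀ n (v : Fin (N n)), (G n).degree v ≤ d) →
    (∃ h : ℝ, 0 < h ∧ ∀ n (S : Finset (Fin (N n))), (S.card : ℝ) ≤ (N n : ℝ) / 2 →
        h * (S.card : ℝ) ≤ (((S ×ˢ Sᶜ).filter (fun p => (G n).Adj p.1 p.2)).card : ℝ)) →
    ∀ ν : ∀ n, (Fin (N n) → ℝ) → ℝ,
      (∀ n (f : Fin (N n) → ℝ), ν n f = sSup {r : ℝ | ∃ g : Fin (N n) → ℝ,
          (∀ u v, |g u - g v| ≤ ((G n).dist u v : ℝ)) ∧ r = ∑ v, f v * g v}) →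
    ∀ q : ℝ, 2 ≤ q → ∀ C : ℝ,
      ∃ (m : ℕ) (x : Fin m → ∀ n, Fin (N n) → ℝ),
        (∀ i n, ∑ v, x i n v = 0) ∧
        (∀ i, Summable (fun n => ν n (x i n) ^ 2)) ∧
        C * Real.sqrt ((1 / 2 ^ m : ℝ) * ∑ s : Finset (Fin m),
            ∑' n, ν n (fun v => ∑ i, (if i ∈ s then (1:ℝ) else -1) * x i n v) ^ 2)
          < (∑ i, (Real.sqrt (∑' n, ν n (x i n) ^ 2)) ^ q) ^ (1 / q)) := by
  intro h
  obtain ⟨π, C, hE, hcot⟩ := Pool.Agent.MP_60034d_an.H13.cotype_two_sum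
  obtain ⟨m, x, hx, hs, hlt⟩ := h (fun n => n) (fun n => Pool.Agent.MP_60034d_an.H13.pg (π n))
    Filter.tendsto_id
    ⟨2 * 13, fun n v => Pool.Agent.MP_60034d_an.H13.pg_degree (π n) v⟩
    ⟨1 / 13, by norm_num, fun n S hS => by
      have h1 : 2 * S.card ≤ Fintype.card (Fin n) := by
        rw [Fintype.card_fin]
        have : (2 : ℝ) * S.card ≤ n := by linarith
        exact_mod_cast this
      have h2 := Pool.Agent.MP_60034d_an.H13.pg_expand (π n) (hE n) S h1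
      have h3 : (S.card : ℝ) ≤ 13 * (((S ×ˢ Sᶜ).filter
          (fun p => (Pool.Agent.MP_60034d_an.H13.pg (π n)).Adj p.1 p.2)).card : ℝ) := by
        exact_mod_cast h2
      linarith⟩
    (fun n f => Pool.Agent.MP_60034d_an.H13.kr (Pool.Agent.MP_60034d_an.H13.pg (π n)) f)
    (fun n f => rfl) 2 le_rfl C
  have h4 := hcot m x hx hs
  have e : (∑ i, (Real.sqrt (∑' n, Pool.Agent.MP_60034d_an.H13.kr
        (Pool.Agent.MP_60034d_an.H13.pg (π n)) (x i n) ^ 2)) ^ (2 : ℝ)) ^ (1 / 2 : ℝ)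
      = Real.sqrt (∑ i, ∑' n, Pool.Agent.MP_60034d_an.H13.kr
        (Pool.Agent.MP_60034d_an.H13.pg (π n)) (x i n) ^ 2) := by
    rw [Real.sqrt_eq_rpow]
    congr 1
    refine Finset.sum_congr rfl (fun i _ => ?_)
    rw [Real.rpow_two, Real.sq_sqrt (tsum_nonneg (fun n => sq_nonneg _))]
  rw [e] at hlt
  refine absurd (lt_of_lt_of_le hlt h4) ?_
  apply not_lt.2
  apply le_of_eq
  unfold Pool.Agent.MP_60034d_an.H13.sg
  rfl

end Pool.Agent.S04826
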