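import Pool.Statements.S05507
import Pool.Agent.MP_993212_an.H46.Fin

set_option autoImplicit false
open Pool Pool.MP_993212_an

namespace Pool.Agent.S05507

/-- There is an algorithm that, given two square nonnegative integer matrices (as lists of rows), decides whether they are strong shift equivalent, i.e. linked by a chain of steps A = RS, B = SR with nonnegative integer R, S. -/
theorem result :
    ComputablePred (fun p : List (List ℕ) × List (List ℕ) =>
      Relation.TransGen
        (fun X Y : (Σ n : ℕ, Matrix (Fin n) (Fin n) ℕ) =>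
          ∃ R : Matrix (Fin X.1) (Fin Y.1) ℕ, ∃ S : Matrix (Fin Y.1) (Fin X.1) ℕ,
            X.2 = R * S ∧ Y.2 = S * R)
        ⟨p.1.length, Matrix.of (fun i j => (p.1.getD (i : ℕ) []).getD (j : ℕ) 0)⟩
        ⟨p.2.length, Matrix.of (fun i j => (p.2.getD (i : ℕ) []).getD (j : ℕ) 0)⟩) := by
  exact Pool.Agent.MP_993212_an.H46.goal

end Pool.Agent.S05507
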