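import Pool.Statements.S05836
import Pool.Agent.MP_afd1e1_an.H2.Main

set_option autoImplicit false
open Filter Topology
open Pool Pool.MP_afd1e1_an

namespace Pool.Agent.S05836

/-- The negation of the preceding statement: There is an infinite-dimensional reflexive real Banach space X such that Lip₀(X), the Lipschitz functions vanishing at 0 normed by their Lipschitz constant, is Grothendieck: every weak*-null sequence in its dual is weakly null. -/
theorem result :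
    ¬ (∃ (X : Type) (_ : NormedAddCommGroup X) (_ : NormedSpace ℝ X),
    CompleteSpace X ∧ ¬ FiniteDimensional ℝ X ∧
    Function.Surjective (NormedSpace.inclusionInDoubleDual ℝ X) ∧
    ∃ (Y : Type) (_ : NormedAddCommGroup Y) (_ : NormedSpace ℝ Y) (e : Y →ₗ[ℝ] (X → ℝ)),
      Function.Injective e ∧
      (∀ f : X → ℝ, (∃ y : Y, e y = f) ↔ (f 0 = 0 ∧ ∃ K : NNReal, LipschitzWith K f)) ∧
      (∀ (y : Y) (K : NNReal), LipschitzWith K (e y) ↔ ‖y‖ ≤ (K : ℝ)) ∧
      ∀ φ : ℕ → (Y →L[ℝ] ℝ),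
        (∀ y : Y, Tendsto (fun n => φ n y) atTop (𝓝 0)) →
        ∀ Ψ : (Y →L[ℝ] ℝ) →L[ℝ] ℝ, Tendsto (fun n => Ψ (φ n)) atTop (𝓝 0)) := by
  rintro ⟨X, _, _, -, hX, -, Y, _, _, e, -, h1, h2, h3⟩
  have hr : 2 ≤ Module.rank ℝ X := by
    by_contra h
    exact hX (Module.rank_lt_aleph0_iff.1 ((not_le.1 h).trans (Cardinal.nat_lt_aleph0 2)))
  obtain ⟨φ, hφ, Ψ, hΨ⟩ := Pool.Agent.MP_afd1e1_an.H2.not_grothendieck hr e h1 h2
  exact hΨ (h3 φ hφ Ψ)

end Pool.Agent.S05836
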