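import Pool.Statements.S06042
import Pool.Agent.MP_c34dea_an.H23.Final
import Pool.Agent.MP_c34dea_an.H23.Cost
import Pool.Agent.MP_c34dea_an.H23.TowerI

set_option autoImplicit false
open MeasureTheory
open Pool Pool.MP_c34dea_an

namespace Pool.Agent.S06042

/-- The negation of the preceding statement: For every countable Borel equivalence relation E on a standard Borel space with an invariant ergodic probability measure, exactly one holds: E is hyperfinite on a conull set, or some invariant conull Borel set carries a free Borel action of F2 whose orbits lie in E-classes. -/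
theorem result :
    ¬ (∀ (X : Type) [MeasurableSpace X] [StandardBorelSpace X]
      (E : Set (X × X)) (μ : Measure X) [IsProbabilityMeasure μ],
      MeasurableSet E →
      (∀ x, (x, x) ∈ E) →
      (∀ x y, (x, y) ∈ E → (y, x) ∈ E) →
      (∀ x y z, (x, y) ∈ E → (y, z) ∈ E → (x, z) ∈ E) →
      (∀ x, {y : X | (x, y) ∈ E}.Countable) →
      (∀ f : X → X, Measurable f → Function.Bijective f →
          (∀ x, (x, f x) ∈ E) → μ.map f = μ) →
      (∀ B : Set X, MeasurableSet B →
          (∀ x y, (x, y) ∈ E → x ∈ B → y ∈ B) → μ B = 0 ∨ μ B = 1) →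
      Xor'
        (∃ Y : Set X, MeasurableSet Y ∧ μ Yᶜ = 0 ∧
          ∃ F : ℕ → Set (X × X),
            (∀ n, MeasurableSet (F n)) ∧
            (∀ n x, (x, x) ∈ F n) ∧
            (∀ n x y, (x, y) ∈ F n → (y, x) ∈ F n) ∧
            (∀ n x y z, (x, y) ∈ F n → (y, z) ∈ F n → (x, z) ∈ F n) ∧
            (∀ n x, {y : X | (x, y) ∈ F n}.Finite) ∧
            (∀ n, F n ⊆ F (n + 1)) ∧
            (∀ x ∈ Y, ∀ y ∈ Y, ((x, y) ∈ E ↔ ∃ n, (x, y) ∈ F n)))
        (∃ A : Set X, MeasurableSet A ∧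
          (∀ x y, (x, y) ∈ E → x ∈ A → y ∈ A) ∧ μ A = 1 ∧
          ∃ a : FreeGroup (Fin 2) → X → X,
            (∀ g, Measurable (a g)) ∧
            (∀ g, ∀ x ∈ A, a g x ∈ A) ∧
            (∀ x ∈ A, a 1 x = x) ∧
            (∀ g h, ∀ x ∈ A, a (g * h) x = a g (a h x)) ∧
            (∀ g, g ≠ 1 → ∀ x ∈ A, a g x ≠ x) ∧
            (∀ g, ∀ x ∈ A, (x, a g x) ∈ E))) :=
  Pool.Agent.MP_c34dea_an.H23.final Pool.Agent.MP_c34dea_an.H23.cost
    Pool.Agent.MP_c34dea_an.H23.towerI

end Pool.Agent.S06042
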