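import Pool.Statements.S06045
import Pool.Agent.MP_c3b115_an.H67.Order

set_option autoImplicit false
open Filter Topology
open Pool Pool.MP_c3b115_an

namespace Pool.Agent.S06045

/-- There exist complex sequences c, t with t nonzero, t tending to infinity, and sum ∣c_n∣/∣t_n∣^2 finite, such that f(z)=sum c_n/(z-t_n)^2 has infinite Nevanlinna order and only finitely many zeros. -/
theorem result :
    ∃ (c t : ℕ → ℂ), (∀ n, t n ≠ 0) ∧ Tendsto t atTop (cocompact ℂ) ∧
      Summable (fun n => ‖c n‖ / ‖t n‖ ^ 2) ∧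
      (∀ ρ : ℝ, ∀ R : ℝ, ∃ r > R,
        r ^ ρ < ValueDistribution.characteristic
          (fun z : ℂ => ∑' n, c n / (z - t n) ^ 2) ⊤ r) ∧
      {z : ℂ | 0 < meromorphicOrderAt (fun w : ℂ => ∑' n, c n / (w - t n) ^ 2) z}.Finite := by
  obtain ⟨t, hinj, ht0, htop, hall⟩ := MP_c3b115_an.H67.exists_enum
  have hsum : (fun z : ℂ => ∑' n, MP_c3b115_an.H67.cc (t n) / (z - t n) ^ 2) =
      MP_c3b115_an.H67.SS := by
    funext z
    refine hinj.tsum_eq (f := fun w => MP_c3b115_an.H67.cc w / (z - w) ^ 2) fun w hw => ?_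
    refine hall w (MP_c3b115_an.H67.cc_ne fun h => hw ?_)
    simp [h]
  refine ⟨fun n => MP_c3b115_an.H67.cc (t n), t, ht0, htop,
    MP_c3b115_an.H67.summable_cc.comp_injective hinj, fun ρ R => ?_, ?_⟩
  · obtain ⟨r, hr, hr0, h⟩ := MP_c3b115_an.H67.infinite_order ρ R
    refine ⟨r, hr, ?_⟩
    rw [hsum, ValueDistribution.characteristic_congr_codiscrete (g := MP_c3b115_an.H67.ff) ?_ hr0]
    · exact h
    · filter_upwards [MP_c3b115_an.H67.poles_codiscrete] with z hz
        using MP_c3b115_an.H67.SS_eq_ff hz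
  · rw [hsum]
    refine Set.finite_empty.subset fun z hz => MP_c3b115_an.H67.ff_no_zero z ?_
    rw [← meromorphicOrderAt_congr (f₁ := MP_c3b115_an.H67.SS)]
    · exact hz
    · filter_upwards [MP_c3b115_an.H67.eventually_ne z] with ζ hζ
        using MP_c3b115_an.H67.SS_eq_ff hζ

end Pool.Agent.S06045
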