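import Pool.Statements.S06305
import Pool.Agent.MP_d61c0a_an.H5.Ball

set_option autoImplicit false
open Pool Pool.MP_d61c0a_an

namespace Pool.Agent.S06305

/-- For every n ≥ 2, the ball algebra of the unit ball in ℂⁿ has a sphere point ζ and a closed ideal with zero set exactly {ζ} that is not the sup-norm closure of any finitely generated ideal. -/
theorem result :
  ∀ n : ℕ, 2 ≤ n →
  ∀ A : Subalgebra ℂ C(Metric.closedBall (0 : EuclideanSpace ℂ (Fin n)) 1, ℂ),
    (∀ f : C(Metric.closedBall (0 : EuclideanSpace ℂ (Fin n)) 1, ℂ),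
      f ∈ A ↔ ∃ g : EuclideanSpace ℂ (Fin n) → ℂ,
        DifferentiableOn ℂ g (Metric.ball (0 : EuclideanSpace ℂ (Fin n)) 1) ∧
        ∀ x : Metric.closedBall (0 : EuclideanSpace ℂ (Fin n)) 1, f x = g x) →
    ∃ ζ : Metric.closedBall (0 : EuclideanSpace ℂ (Fin n)) 1,
      ‖(ζ : EuclideanSpace ℂ (Fin n))‖ = 1 ∧
      ∃ J : Ideal A, IsClosed (J : Set A) ∧
        (∀ w : Metric.closedBall (0 : EuclideanSpace ℂ (Fin n)) 1,
          (∀ f ∈ J, (f : C(Metric.closedBall (0 : EuclideanSpace ℂ (Fin n)) 1, ℂ)) w = 0) ↔ w = ζ) ∧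
        ∀ I : Ideal A, I.FG → closure (I : Set A) ≠ (J : Set A) := by
  intro n hn A hA
  exact Pool.Agent.MP_d61c0a_an.H5.ball_main n hn A hA

end Pool.Agent.S06305
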