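import Pool.Statements.S07038
import Pool.Agent.MP_089fcb_co.H7.Final
import Pool.Agent.MP_089fcb_co.H7.Arith
import Pool.Agent.MP_089fcb_co.H7.Steiner
import Pool.Agent.MP_089fcb_co.H7.Spec1
import Pool.Agent.MP_089fcb_co.H7.Spec2
import Pool.Agent.MP_089fcb_co.H7.Lloyd
import Pool.Agent.MP_089fcb_co.H21.Bridge
import Pool.Agent.MP_089fcb_co.H7.KRoot
import Pool.Agent.MP_089fcb_co.H7.KSmall
import Pool.Agent.MP_089fcb_co.H7.Prod
import Pool.Agent.MP_089fcb_co.H7.PP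
import Pool.Agent.MP_089fcb_co.H7.One

set_option autoImplicit false
open Pool Pool.MP_089fcb_co

namespace Pool.Agent.S07038

/-- The negation of the preceding statement: Some Johnson graph J(v,k) has a perfect e-code, meaning every k-set is within distance e of exactly one codeword, with at least two codewords and minimum distance d satisfying 1 < d < k. -/
theorem result :
    ¬ (∃ v k e : ℕ, ∃ C : Finset (Finset (Fin v)),
      (∀ A ∈ C, A.card = k) ∧ 2 ≤ C.card ∧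
      (∀ X : Finset (Fin v), X.card = k → ∃! A, A ∈ C ∧ (X \ A).card ≤ e) ∧
      ∃ d : ℕ, 1 < d ∧ d < k ∧
        (∀ A ∈ C, ∀ B ∈ C, A ≠ B → d ≤ (A \ B).card) ∧
        ∃ A ∈ C, ∃ B ∈ C, A ≠ B ∧ (A \ B).card = d) := by
  have hT : Pool.Agent.MP_089fcb_co.H7.TwoLogStmt := Pool.Agent.MP_089fcb_co.H21.twoLogStmt
  exact Pool.Agent.MP_089fcb_co.H7.Final.main Pool.Agent.MP_089fcb_co.H7.Steiner.steiner
    (Pool.Agent.MP_089fcb_co.H7.Lloyd.lloyd Pool.Agent.MP_089fcb_co.H7.Spec1.ann Pool.Agent.MP_089fcb_co.H7.Spec1.design Pool.Agent.MP_089fcb_co.H7.Spec2.ball Pool.Agent.MP_089fcb_co.H7.Spec2.sp)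
    (Pool.Agent.MP_089fcb_co.H7.Arith.arith Pool.Agent.MP_089fcb_co.H7.PP.pp Pool.Agent.MP_089fcb_co.H7.PP.anchor
      (Pool.Agent.MP_089fcb_co.H7.One.one hT Pool.Agent.MP_089fcb_co.H7.KRoot.k1 Pool.Agent.MP_089fcb_co.H7.KRoot.k2 Pool.Agent.MP_089fcb_co.H7.KRoot.k3 Pool.Agent.MP_089fcb_co.H7.KSmall.k4 Pool.Agent.MP_089fcb_co.H7.KSmall.k5) hT
      Pool.Agent.MP_089fcb_co.H7.Prod.prod Pool.Agent.MP_089fcb_co.H7.KSmall.k5 Pool.Agent.MP_089fcb_co.H7.KSmall.k6 Pool.Agent.MP_089fcb_co.H7.KSmall.k7 Pool.Agent.MP_089fcb_co.H7.Prod.k8)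

end Pool.Agent.S07038
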