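import Pool.Statements.S07743
import Pool.Agent.MP_278f54_co.H42.Simplex

set_option autoImplicit false
open Pool Pool.MP_278f54_co

namespace Pool.Agent.S07743

/-- For d≥3, 0<λ<√(2d/(d+1))−1, n>1 and any packing of n unit balls in R^d, n·vol(unit ball)/vol(union of radius-(1+λ) balls) is at most the regular edge-2 simplex ratio σ_d(λ). -/
theorem result :
    ∀ (d : ℕ), 3 ≤ d →
    ∀ (lam : ℝ), 0 < lam → lam < Real.sqrt (2 * (d : ℝ) / ((d : ℝ) + 1)) - 1 →
    ∀ (n : ℕ), 1 < n →
    ∀ (c : Fin n → EuclideanSpace ℝ (Fin d)),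
      (∀ i j, i ≠ j → 2 ≤ dist (c i) (c j)) →
    ∀ (t : Fin (d + 1) → EuclideanSpace ℝ (Fin d)),
      (∀ i j, i ≠ j → dist (t i) (t j) = 2) →
      (n : ENNReal) * MeasureTheory.volume (Metric.closedBall (0 : EuclideanSpace ℝ (Fin d)) 1)
        * MeasureTheory.volume (convexHull ℝ (Set.range t) ∩
            ⋃ i : Fin (d + 1), Metric.closedBall (t i) (1 + lam))
      ≤ ((d : ENNReal) + 1)
        * MeasureTheory.volume (convexHull ℝ (Set.range t) ∩ Metric.closedBall (t 0) 1)
        * MeasureTheory.volume (⋃ i : Fin n, Metric.closedBall (c i) (1 + lam)) := by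
  classical
  intro d hd lam hlam _ n _ c hc t ht
  obtain ⟨T, g, S, hT⟩ := Pool.Agent.MP_278f54_co.H42.regS_of_dist t ht
  obtain ⟨K, hK1, hK2⟩ := Pool.Agent.MP_278f54_co.H42.simplex_bound S (1 + lam)
  have hinj : Function.Injective c := by
    intro i j hij
    by_contra hne
    have := hc i j hne
    rw [hij, dist_self] at this
    norm_num at this
  have hP : Pool.Agent.MP_278f54_co.H42.Pack (Finset.univ.image c) := by
    intro x hx y hy hne
    obtain ⟨i, _, rfl⟩ := Finset.mem_image.1 hx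
    obtain ⟨j, _, rfl⟩ := Finset.mem_image.1 hy
    have := hc i j (fun h => hne (by rw [h]))
    rw [dist_eq_norm] at this
    nlinarith
  have hB := Pool.Agent.MP_278f54_co.H42.packing_bound (R := 1 + lam) (by linarith) (by omega) hP
  have e1 : (⋃ x ∈ Finset.univ.image c, Metric.closedBall x (1 + lam))
      = ⋃ i : Fin n, Metric.closedBall (c i) (1 + lam) := by
    ext x; simp
  have e2 : (⋃ x ∈ T, Metric.closedBall x (1 + lam))
      = ⋃ i : Fin (d + 1), Metric.closedBall (t i) (1 + lam) := by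
    have : (⋃ x ∈ T, Metric.closedBall x (1 + lam))
        = ⋃ x ∈ (T : Set (EuclideanSpace ℝ (Fin d))), Metric.closedBall x (1 + lam) := rfl
    rw [this, hT, Set.biUnion_range]
  have h0 : t 0 ∈ T := by
    rw [← Finset.mem_coe, hT]; exact Set.mem_range_self 0
  have hK3 := hK2 (t 0) h0
  rw [e1, Finset.card_image_of_injective _ hinj, Finset.card_univ, Fintype.card_fin] at hB
  rw [e2, hT] at hK1
  rw [hT] at hK3
  refine le_trans (mul_le_mul_right hK1 _) ?_
  refine le_trans ?_ (mul_le_mul_left (mul_le_mul_right hK3 _) _)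
  have := mul_le_mul_right hB (((d : ENNReal) + 1) * K)
  refine le_trans (le_of_eq ?_) (this.trans (le_of_eq ?_)) <;> ring

end Pool.Agent.S07743
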