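import Pool.Statements.S08374
import Pool.Agent.MP_41ddaf_co.H50.Main

set_option autoImplicit false
open Pool Pool.MP_41ddaf_co

namespace Pool.Agent.S08374

/-- The negation of the preceding statement: Every full-dimensional convex polytope in 3-space whose facets are all pairwise congruent admits an isometry of space, other than the identity, mapping the polytope onto itself. -/
theorem result :
    ¬ (∀ S : Finset (EuclideanSpace ℝ (Fin 3)),
      (interior (convexHull ℝ (S : Set (EuclideanSpace ℝ (Fin 3))))).Nonempty →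
      (∀ F G : Set (EuclideanSpace ℝ (Fin 3)),
        (∃ l : EuclideanSpace ℝ (Fin 3) →L[ℝ] ℝ,
          F = {x | x ∈ convexHull ℝ (S : Set (EuclideanSpace ℝ (Fin 3))) ∧
            ∀ y ∈ convexHull ℝ (S : Set (EuclideanSpace ℝ (Fin 3))), l y ≤ l x}) →
        Module.finrank ℝ (vectorSpan ℝ F) = 2 →
        (∃ l : EuclideanSpace ℝ (Fin 3) →L[ℝ] ℝ,
          G = {x | x ∈ convexHull ℝ (S : Set (EuclideanSpace ℝ (Fin 3))) ∧
            ∀ y ∈ convexHull ℝ (S : Set (EuclideanSpace ℝ (Fin 3))), l y ≤ l x}) →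
        Module.finrank ℝ (vectorSpan ℝ G) = 2 →
        ∃ φ : EuclideanSpace ℝ (Fin 3) ≃ᵢ EuclideanSpace ℝ (Fin 3), φ '' F = G) →
      ∃ φ : EuclideanSpace ℝ (Fin 3) ≃ᵢ EuclideanSpace ℝ (Fin 3),
        φ '' convexHull ℝ (S : Set (EuclideanSpace ℝ (Fin 3))) =
          convexHull ℝ (S : Set (EuclideanSpace ℝ (Fin 3))) ∧
        φ ≠ IsometryEquiv.refl (EuclideanSpace ℝ (Fin 3))) := by
  classical
  intro h
  obtain ⟨p, h1, h2, h3⟩ := Pool.Agent.MP_41ddaf_co.H50.main
  have hS : ((Finset.univ.image p : Finset (EuclideanSpace ℝ (Fin 3))) :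
      Set (EuclideanSpace ℝ (Fin 3))) = Set.range p := by simp
  have := h (Finset.univ.image p)
  rw [hS] at this
  obtain ⟨φ, hφ, hne⟩ := this h1 h2
  exact hne (h3 φ hφ)

end Pool.Agent.S08374
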