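import Pool.Statements.S09013
import Pool.Agent.MP_5d33c3_co.H12.Main

set_option autoImplicit false
open Pool Pool.MP_5d33c3_co

namespace Pool.Agent.S09013

/-- Every finite graph with maximum degree at most 3 has a 6-colouring of its edges where colours 0,1 are matchings and colours 2–5 are induced matchings (distinct same-coloured edges are disjoint and joined by no edge). -/
theorem result :
    ∀ (V : Type) [Fintype V] (G : SimpleGraph V),
      (∀ v : V, Set.ncard (G.neighborSet v) ≤ 3) →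
      ∃ c : V → V → Fin 6,
        (∀ a b : V, G.Adj a b → c a b = c b a) ∧
        ∀ a b x y : V, G.Adj a b → G.Adj x y →
          ¬ (a = x ∧ b = y) → ¬ (a = y ∧ b = x) →
          c a b = c x y →
            (a ≠ x ∧ a ≠ y ∧ b ≠ x ∧ b ≠ y) ∧
            (2 ≤ (c a b).val →
              (¬ G.Adj a x ∧ ¬ G.Adj a y ∧ ¬ G.Adj b x ∧ ¬ G.Adj b y)) := by
  intro V _ G hG
  have h3 : Pool.Agent.MP_5d33c3_co.H12.Deg3 G := by
    intro a b c d e hb hc hd he
    by_contra hne
    push Not at hne
    have := (Set.three_lt_ncard_iff (s := G.neighborSet a)).2 ⟨b, c, d, e, hb, hc, hd, he, hne⟩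
    have := hG a
    omega
  obtain ⟨c, pv⟩ := (Pool.Agent.MP_5d33c3_co.H12.good G h3).1
  refine ⟨fun a b => ⟨c a b, pv.lt a b⟩, fun a b _ => Fin.ext (pv.symm a b), ?_⟩
  intro a b x y hab hxy n1 n2 he
  have he' : c a b = c x y := congrArg Fin.val he
  have s1 := pv.symm a b
  have s2 := pv.symm x y
  have d1 : a ≠ x := by
    rintro rfl
    exact pv.v1 a b y hab hxy (fun h => n1 ⟨rfl, h⟩) he'
  have d2 : a ≠ y := by
    rintro rfl
    exact pv.v1 a b x hab hxy.symm (fun h => n2 ⟨rfl, h⟩) (by omega)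
  have d3 : b ≠ x := by
    rintro rfl
    exact pv.v1 b a y hab.symm hxy d2 (by omega)
  have d4 : b ≠ y := by
    rintro rfl
    exact pv.v1 b a x hab.symm hxy.symm d1 (by omega)
  refine ⟨⟨d1, d2, d3, d4⟩, fun h2 => ⟨fun h => ?_, fun h => ?_, fun h => ?_, fun h => ?_⟩⟩
  · exact pv.v2 a b x y hab h hxy d3 d2.symm h2 he'
  · exact pv.v2 a b y x hab h hxy.symm d4 d1.symm h2 (by omega)
  · exact pv.v2 b a x y hab.symm h hxy d1 d4.symm (by rw [← s1]; exact h2) (by omega)
  · exact pv.v2 b a y x hab.symm h hxy.symm d2 d3.symm (by rw [← s1]; exact h2) (by omega)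

end Pool.Agent.S09013
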