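import Pool.Statements.S09202
import Pool.Agent.MP_640286_co.H32.Beta
import Pool.Agent.MP_640286_co.H32.Blow

set_option autoImplicit false
open Classical
open Pool Pool.MP_640286_co

namespace Pool.Agent.S09202

/-- The negation of the preceding statement: For every connected graph H with at least two vertices, the maximum over proper labelings f of 1-1/λ(T_f)^2 is exactly the critical edge density: blow-ups with all densities above it contain H transversally, and below it some blow-up avoids H. -/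
theorem result :
    ¬ (∀ n : ℕ, ∀ H : SimpleGraph (Fin (n+2)), H.Connected →
    ∃ B : ℝ,
      B = sSup {β : ℝ | ∃ f : Equiv.Perm (Fin (n+2)),
        (∀ k : Fin (n+2), (H.induce {v | f.symm v ≤ k}).Connected) ∧
        ∃ P : Finset (Finset (Fin (n+2))),
          P = Finset.univ.filter (fun S : Finset (Fin (n+2)) => (0 : Fin (n+2)) ∈ S ∧
                ∀ a ∈ S, ∀ b ∈ S, a < b → (∀ c ∈ S, ¬ (a < c ∧ c < b)) → H.Adj (f a) (f b)) ∧
          β = 1 - ((sSup {q : ℝ | ∃ x : Finset (Fin (n+2)) → ℝ,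
                (∑ S ∈ P, x S ^ 2) = 1 ∧
                q = ∑ S ∈ P, ∑ T ∈ P,
                  (if ((∃ m : Fin (n+2), m ∉ S ∧ (∀ a ∈ S, a < m) ∧ T = insert m S) ∨
                       (∃ m : Fin (n+2), m ∉ T ∧ (∀ a ∈ T, a < m) ∧ S = insert m T))
                   then x S * x T else 0)}) ^ 2)⁻¹} ∧
      (∀ m : ℕ, ∀ π : Fin m → Fin (n+2), ∀ G : SimpleGraph (Fin m),
        Function.Surjective π →
        (∀ x y, G.Adj x y → H.Adj (π x) (π y)) →
        (∀ i j, H.Adj i j →
          B < (Nat.card {p : Fin m × Fin m // π p.1 = i ∧ π p.2 = j ∧ G.Adj p.1 p.2} : ℝ) /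
            ((Nat.card {x : Fin m // π x = i} : ℝ) * (Nat.card {x : Fin m // π x = j} : ℝ))) →
        ∃ a : Fin (n+2) → Fin m, (∀ i, π (a i) = i) ∧ ∀ i j, H.Adj i j → G.Adj (a i) (a j)) ∧
      (∀ d : ℝ, d < B →
        ∃ m : ℕ, ∃ π : Fin m → Fin (n+2), ∃ G : SimpleGraph (Fin m),
          Function.Surjective π ∧
          (∀ x y, G.Adj x y → H.Adj (π x) (π y)) ∧
          (∀ i j, H.Adj i j →
            d < (Nat.card {p : Fin m × Fin m // π p.1 = i ∧ π p.2 = j ∧ G.Adj p.1 p.2} : ℝ) /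
              ((Nat.card {x : Fin m // π x = i} : ℝ) * (Nat.card {x : Fin m // π x = j} : ℝ))) ∧
          ¬ ∃ a : Fin (n+2) → Fin m, (∀ i, π (a i) = i) ∧ ∀ i j, H.Adj i j → G.Adj (a i) (a j))) := by
  intro hall
  obtain ⟨B, hB, hup, -⟩ := hall 43 Pool.Agent.MP_640286_co.H32.H
    Pool.Agent.MP_640286_co.H32.H_connected
  have hlt : B < 15 / 16 := by
    have hle : B ≤ 1 - ((3999 / 1000 : ℝ) ^ 2)⁻¹ := by
      refine hB.trans_le (Pool.Agent.MP_640286_co.H32.sup_le 43 _ _ (by norm_num) ?_)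
      intro f hf
      obtain ⟨t, h1, h2, h3⟩ := Pool.Agent.MP_640286_co.H32.exists_cert f hf
      refine ⟨t, h1, ?_, fun a ha => ?_⟩
      · convert h2
      · convert h3 a ha
    refine hle.trans_lt ?_
    norm_num
  apply Pool.Agent.MP_640286_co.H32.no_transversal
  apply hup 106 Pool.Agent.MP_640286_co.H32.proj Pool.Agent.MP_640286_co.H32.G
    Pool.Agent.MP_640286_co.H32.proj_surj Pool.Agent.MP_640286_co.H32.G_hom
  intro i j hij
  rw [Pool.Agent.MP_640286_co.H32.density i j hij]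
  exact hlt

end Pool.Agent.S09202
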