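import Pool.Statements.S09835
import Pool.Agent.MP_83e673_co.H84.Main

set_option autoImplicit false
open Pool Pool.MP_83e673_co

namespace Pool.Agent.S09835

/-- There is f : ℕ → ℕ such that, for every positive m, some Cayley graph of (Z/2)^d has chromatic number m exactly when 2^n − f(n) ≤ m ≤ 2^n for some n. -/
theorem result :
    ∃ f : ℕ → ℕ, ∀ m : ℕ, 0 < m →
      ((∃ d : ℕ, ∃ S : Set (Fin d → ZMod 2),
          (SimpleGraph.fromRel (fun x y : Fin d → ZMod 2 => x + y ∈ S)).chromaticNumber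
            = (m : ℕ∞)) ↔
        ∃ n : ℕ, 2 ^ n - f n ≤ m ∧ m ≤ 2 ^ n) := by
  exact Pool.Agent.MP_83e673_co.H84.main

end Pool.Agent.S09835
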