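import Pool.Statements.S10702
import Pool.Agent.MP_aa8e9f_co.H85.Main

set_option autoImplicit false
open Pool Pool.MP_aa8e9f_co

namespace Pool.Agent.S10702

/-- The negation of the preceding statement: For a finite graph G that is not quasi-parity, where every proper induced subgraph is quasi-parity, G or its complement is an odd cycle of length at least 5 or the line graph of a bipartite graph. -/
theorem result :
    ¬ (∀ (V : Type) [Fintype V] [DecidableEq V] (G : SimpleGraph V),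
      (¬ ∀ T : Finset V, 2 ≤ T.card →
          ∃ K : SimpleGraph V, (K = G ∨ K = Gᶜ) ∧
            ∃ x y : V, x ∈ T ∧ y ∈ T ∧ x ≠ y ∧ ¬ K.Adj x y ∧
              ∀ p : K.Walk x y, p.IsPath → (∀ v ∈ p.support, v ∈ T) →
                (∀ i j : ℕ, i + 1 < j → j ≤ p.length → ¬ K.Adj (p.getVert i) (p.getVert j)) →
                Even p.length) →
      (∀ T : Finset V, T ≠ Finset.univ → 2 ≤ T.card →
          ∃ K : SimpleGraph V, (K = G ∨ K = Gᶜ) ∧
            ∃ x y : V, x ∈ T ∧ y ∈ T ∧ x ≠ y ∧ ¬ K.Adj x y ∧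
              ∀ p : K.Walk x y, p.IsPath → (∀ v ∈ p.support, v ∈ T) →
                (∀ i j : ℕ, i + 1 < j → j ≤ p.length → ¬ K.Adj (p.getVert i) (p.getVert j)) →
                Even p.length) →
      ∃ H : SimpleGraph V, (H = G ∨ H = Gᶜ) ∧
        ((∃ n : ℕ, Odd n ∧ 5 ≤ n ∧ Nonempty (H ≃g SimpleGraph.cycleGraph n)) ∨
         (∃ m : ℕ, ∃ B : SimpleGraph (Fin m), B.Colorable 2 ∧ Nonempty (H ≃g B.lineGraph)))) := by
  intro h
  open Pool.Agent.MP_aa8e9f_co.H85 in
  obtain ⟨H, hH, h1⟩ := h V G (fun h2 => not_good (h2 Finset.univ (by simp))) good_proper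
  open Pool.Agent.MP_aa8e9f_co.H85 in
  have h3 : Claw H := hH.elim (fun h => h ▸ claw_KK true) fun h => h ▸ claw_KK false
  open Pool.Agent.MP_aa8e9f_co.H85 in
  rcases h1 with ⟨n, -, h5, ⟨φ⟩⟩ | ⟨m, B, -, ⟨φ⟩⟩
  · obtain ⟨n, rfl⟩ : ∃ k, n = k + 2 := ⟨n - 2, by omega⟩
    exact Pool.Agent.MP_aa8e9f_co.H85.not_claw_cycle n (h3.map φ)
  · exact Pool.Agent.MP_aa8e9f_co.H85.not_claw_line B (h3.map φ)

end Pool.Agent.S10702
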