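import Pool.Statements.S11039
import Pool.Agent.MP_b9875a_co.H99.Glue
import Pool.Agent.MP_b9875a_co.H99.Start
import Pool.Agent.MP_b9875a_co.H99.Fin2
import Pool.Agent.MP_b9875a_co.H3.El
import Pool.Agent.MP_b9875a_co.H6.Lower
import Pool.Agent.MP_b9875a_co.H44.Elim
import Pool.Agent.MP_b9875a_co.H45.Dive
import Pool.Agent.MP_b9875a_co.H55.Tl2
import Pool.Agent.MP_b9875a_co.H62.Epoch
import Pool.Agent.MP_b9875a_co.H70.Menger
import Pool.Agent.MP_b9875a_co.H82.Pot
import Pool.Agent.MP_b9875a_co.H86.Target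
import Pool.Agent.MP_b9875a_co.H95.Prep
import Pool.Agent.MP_b9875a_co.H97.Pdive

set_option autoImplicit false
open Pool Pool.MP_b9875a_co

namespace Pool.Agent.S11039

/-- Some c>0 works for all k≥1: every finite nonempty loopless digraph with all out-degrees at least ck has k distinct vertices and pairwise arc-disjoint directed paths from the i-th to the j-th one whenever i<j. -/
theorem result :
    ∃ c : ℝ, 0 < c ∧ ∀ k : ℕ, 1 ≤ k → ∀ (V : Type) [Fintype V] [Nonempty V] (G : Digraph V),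
      (∀ v, ¬ G.Adj v v) →
      (∀ v, c * (k : ℝ) ≤ (({w | G.Adj v w} : Set V).ncard : ℝ)) →
      ∃ f : Fin k → V, Function.Injective f ∧ ∃ P : Fin k → Fin k → List V,
        (∀ i j : Fin k, i < j →
          (P i j).head? = some (f i) ∧ (P i j).getLast? = some (f j) ∧ (P i j).Nodup ∧
          ∀ a b : V, (a, b) ∈ (P i j).zip (P i j).tail → G.Adj a b) ∧
        (∀ i j i' j' : Fin k, i < j → i' < j' → (i, j) ≠ (i', j') →
          ∀ a b : V, (a, b) ∈ (P i j).zip (P i j).tail → (a, b) ∉ (P i' j').zip (P i' j').tail) := by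
  have hm := Pool.Agent.MP_b9875a_co.H70.menger
  have hel := Pool.Agent.MP_b9875a_co.H99.LN.elim
  have hdv := Pool.Agent.MP_b9875a_co.H99.LN.dive
    (Pool.Agent.MP_b9875a_co.H99.LN.pdive hm Pool.Agent.MP_b9875a_co.H3.EL.el) hel
  obtain ⟨c, hc, h⟩ := Pool.Agent.MP_b9875a_co.H99.LN.glue
    (Pool.Agent.MP_b9875a_co.H86.Tgt.target hm Pool.Agent.MP_b9875a_co.H82.pot)
    Pool.Agent.MP_b9875a_co.H99.LN.epoch hdv (Pool.Agent.MP_b9875a_co.H99.LN.fin hel)
    (Pool.Agent.MP_b9875a_co.H99.LN.prep Pool.Agent.MP_b9875a_co.H99.LN.lower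
      Pool.Agent.MP_b9875a_co.H55.tl2 hdv)
    Pool.Agent.MP_b9875a_co.H99.LN.start
  exact ⟨c, hc, fun k hk V _ _ G _ hdeg => h k hk V G hdeg⟩

end Pool.Agent.S11039
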