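import Pool.Statements.S11718
import Pool.Agent.MP_d68894_co.H53.Main

set_option autoImplicit false
open Matrix
open Pool Pool.MP_d68894_co

namespace Pool.Agent.S11718

/-- The negation of the preceding statement: For every full-dimensional polyhedron in R^d with 2d facets, where vertex u lies on exactly d of them and vertex v on the other d, there is a walk of at most d maximal-length steps along support-minimal circuit directions from u to v. -/
theorem result :
    ¬ (∀ (d : ℕ) (A : Fin d ⊕ Fin d → Fin d → ℝ) (b : Fin d ⊕ Fin d → ℝ) (u v : Fin d → ℝ),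
      (∃ x : Fin d → ℝ, ∀ i, A i ⬝ᵥ x < b i) →
      (∀ i, ∃ x : Fin d → ℝ, b i < A i ⬝ᵥ x ∧ ∀ j, j ≠ i → A j ⬝ᵥ x ≤ b j) →
      (∀ j, A (Sum.inl j) ⬝ᵥ u = b (Sum.inl j)) →
      (∀ j, A (Sum.inr j) ⬝ᵥ u < b (Sum.inr j)) →
      LinearIndependent ℝ (fun j => A (Sum.inl j)) →
      (∀ j, A (Sum.inr j) ⬝ᵥ v = b (Sum.inr j)) →
      (∀ j, A (Sum.inl j) ⬝ᵥ v < b (Sum.inl j)) →
      LinearIndependent ℝ (fun j => A (Sum.inr j)) →
      ∃ k ≤ d, ∃ y : Fin (k + 1) → Fin d → ℝ,
        y 0 = u ∧ y (Fin.last k) = v ∧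
        (∀ t i, A i ⬝ᵥ y t ≤ b i) ∧
        ∀ t : Fin k, ∃ g : Fin d → ℝ, ∃ α : ℝ,
          0 < α ∧
          g ≠ 0 ∧
          (∀ h : Fin d → ℝ, h ≠ 0 →
            (∀ i, A i ⬝ᵥ g = 0 → A i ⬝ᵥ h = 0) →
            (∀ i, A i ⬝ᵥ h = 0 → A i ⬝ᵥ g = 0)) ∧
          y t.succ = y t.castSucc + α • g ∧
          ∀ β : ℝ, α < β → ∃ i, b i < A i ⬝ᵥ (y t.castSucc + β • g)) := by
  intro H
  obtain ⟨d, B, c, hB, hv, hc, hno⟩ := Pool.Agent.MP_d68894_co.H53.counter
  have hBd : IsUnit B.det := (Matrix.isUnit_iff_isUnit_det B).1 hB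
  have hBB : ∀ x : Fin d → ℝ, B *ᵥ (B⁻¹ *ᵥ x) = x := fun x => by
    rw [mulVec_mulVec, Matrix.mul_nonsing_inv _ hBd, one_mulVec]
  have hBB' : ∀ (x : Fin d → ℝ) j, B j ⬝ᵥ (B⁻¹ *ᵥ x) = x j := fun x j => congrFun (hBB x) j
  have small : ∀ (x w : Fin d → ℝ), (∀ a, 0 < x a) → ∃ s : ℝ, 0 < s ∧ ∀ a, 0 ≤ x a + s * w a := by
    intro x w hx
    have : ∀ᶠ s in nhdsWithin (0:ℝ) (Set.Ioi 0), ∀ a, 0 ≤ x a + s * w a := by
      refine Filter.eventually_all.2 fun a => Filter.Eventually.filter_mono nhdsWithin_le_nhds ?_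
      have hcont : Continuous fun s : ℝ => x a + s * w a := by fun_prop
      exact (continuousAt_const.eventually_lt hcont.continuousAt (by simpa using hx a)).mono
        fun s hs => hs.le
    obtain ⟨s, h1, h2⟩ := (this.and self_mem_nhdsWithin).exists
    exact ⟨s, h2, h1⟩
  obtain ⟨k, hk, y, h0, hl, hf, hs⟩ := H d (Pool.Agent.MP_d68894_co.H53.rowA B)
    (Pool.Agent.MP_d68894_co.H53.rhs c) 0 (B⁻¹ *ᵥ c)
    ⟨(1 / 2 : ℝ) • (B⁻¹ *ᵥ c), by
      rintro (a | a)
      · rw [Pool.Agent.MP_d68894_co.H53.rowA_inl]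
        have := hv a
        simp only [Pool.Agent.MP_d68894_co.H53.rhs, Pi.smul_apply, smul_eq_mul]
        linarith
      · have := hc a
        simp only [Pool.Agent.MP_d68894_co.H53.rhs, Pool.Agent.MP_d68894_co.H53.rowA,
          dotProduct_smul, hBB', smul_eq_mul]
        linarith⟩
    (by
      rintro (i | i)
      · obtain ⟨s, h1, h2⟩ := small c (fun a => B a i) hc
        refine ⟨Pi.single i (-s), ?_, ?_⟩
        · rw [Pool.Agent.MP_d68894_co.H53.rowA_inl]
          simpa [Pool.Agent.MP_d68894_co.H53.rhs] using h1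
        · rintro (j | j) hj
          · have : j ≠ i := fun e => hj (by rw [e])
            rw [Pool.Agent.MP_d68894_co.H53.rowA_inl]
            simp [Pool.Agent.MP_d68894_co.H53.rhs, this]
          · have := h2 j
            simp only [Pool.Agent.MP_d68894_co.H53.rhs, Pool.Agent.MP_d68894_co.H53.rowA,
              dotProduct_single]
            linarith
      · obtain ⟨s, h1, h2⟩ := small (B⁻¹ *ᵥ c) (B⁻¹ *ᵥ Pi.single i 1) hv
        refine ⟨B⁻¹ *ᵥ c + s • (B⁻¹ *ᵥ Pi.single i 1), ?_, ?_⟩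
        · simpa [Pool.Agent.MP_d68894_co.H53.rhs, Pool.Agent.MP_d68894_co.H53.rowA,
            dotProduct_add, dotProduct_smul, hBB', -mulVec_single] using h1
        · rintro (j | j) hj
          · rw [Pool.Agent.MP_d68894_co.H53.rowA_inl]
            have := h2 j
            simp only [Pool.Agent.MP_d68894_co.H53.rhs, Pi.add_apply, Pi.smul_apply, smul_eq_mul]
            linarith
          · have : j ≠ i := fun e => hj (by rw [e])
            simp [Pool.Agent.MP_d68894_co.H53.rhs, Pool.Agent.MP_d68894_co.H53.rowA,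
              dotProduct_add, dotProduct_smul, hBB', -mulVec_single, this])
    (fun j => by simp [Pool.Agent.MP_d68894_co.H53.rhs])
    (fun j => by simpa [Pool.Agent.MP_d68894_co.H53.rhs] using hc j)
    (by
      rw [Fintype.linearIndependent_iff]
      intro g hg i
      have := congrFun hg i
      simpa [Pool.Agent.MP_d68894_co.H53.rowA, Finset.sum_apply, Pi.single_apply] using this)
    (fun j => hBB' c j)
    (fun j => by
      rw [Pool.Agent.MP_d68894_co.H53.rowA_inl]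
      simpa [Pool.Agent.MP_d68894_co.H53.rhs] using hv j)
    (Matrix.linearIndependent_rows_iff_isUnit.2 hB)
  choose g α hs using hs
  refine hno k hk (fun t => y ⟨min t k, by omega⟩) (fun t => if h : t < k then g ⟨t, h⟩ else 0)
    (fun t => if h : t < k then α ⟨t, h⟩ else 0) ?_ ?_ (fun t _ i => hf _ i) ?_
  · rw [← h0]; congr 1
  · have : y ⟨min k k, by omega⟩ = y (Fin.last k) := by congr 1; ext; simp
    simp only [this, hl, hBB]
  · intro t ht
    obtain ⟨-, h2, h3, h4, h5⟩ := hs ⟨t, ht⟩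
    have e1 : y ⟨min (t + 1) k, by omega⟩ = y (Fin.succ ⟨t, ht⟩) := by
      congr 1; ext; simp; omega
    have e2 : y ⟨min t k, by omega⟩ = y (Fin.castSucc ⟨t, ht⟩) := by
      congr 1; ext; simp; omega
    simp only [dif_pos ht, e1, e2]
    exact ⟨⟨h2, h3⟩, h4, h5⟩

end Pool.Agent.S11718
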