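import Pool.Statements.S11888
import Pool.Agent.MP_dd77b8_co.H73.Sub

set_option autoImplicit false
open Pool Pool.MP_dd77b8_co

namespace Pool.Agent.S11888

/-- The proof does not use the diameter of the set.  The cone has only C(n,3) parameters, about
d^(3/4) for d = C(n,4), so every bounded subset of the cone with two points is a union of fewer
than exp(d^(4/5)) sets of smaller diameter once n is large. -/
theorem result :
    ¬ (∃ N : ℕ, ∀ n : ℕ, N ≤ n →
      ∀ X : Set (EuclideanSpace ℝ {T : Finset (Fin n) // T.card = 4}),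
        X = {f | ∃ g : Finset (Fin n) → ℝ,
              f = WithLp.toLp 2 (fun T : {T : Finset (Fin n) // T.card = 4} =>
                    ∏ S ∈ T.1.powersetCard 3, g S) ∧ ‖f‖ = 1} →
        ∀ m : ℕ, ∀ A : Fin m → Set (EuclideanSpace ℝ {T : Finset (Fin n) // T.card = 4}),
          (⋃ i, A i) = X →
          (∀ i, Metric.diam (A i) < Metric.diam X) →
          Real.exp (((n.choose 4 : ℕ) : ℝ) ^ ((4 : ℝ) / 5)) ≤ (m : ℝ)) := by
  rintro ⟨N, hN⟩
  obtain ⟨N', hN'⟩ := Pool.Agent.MP_dd77b8_co.H98.count_lt_exp 3 (4 / 5) (1 / 2) (by norm_num)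
    (by norm_num)
  obtain ⟨n, hn5, hnN, hnN'⟩ : ∃ n, 5 ≤ n ∧ N ≤ n ∧ N' ≤ n := ⟨5 + N + N', by omega⟩
  set X : Set (EuclideanSpace ℝ {T : Finset (Fin n) // T.card = 4}) :=
    {f | ∃ g : Finset (Fin n) → ℝ,
              f = WithLp.toLp 2 (fun T : {T : Finset (Fin n) // T.card = 4} =>
                    ∏ S ∈ T.1.powersetCard 3, g S) ∧ ‖f‖ = 1} with hX
  have hb : Bornology.IsBounded X :=
    (Metric.isBounded_closedBall (x := 0) (r := 1)).subset (by
      rintro f ⟨g, -, h1⟩
      simp [h1])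
  have hmem : ∀ T : {T : Finset (Fin n) // T.card = 4}, EuclideanSpace.single T (1 : ℝ) ∈ X := by
    intro T
    obtain ⟨g, hg⟩ := Pool.Agent.MP_dd77b8_co.H98.single_eq_prod (k := 3) (by norm_num) T 1
    exact ⟨g, hg, by simp⟩
  have hne : X.Nontrivial := by
    have h5 : 1 < Fintype.card {T : Finset (Fin n) // T.card = 4} := by
      rw [Pool.Agent.MP_dd77b8_co.H98.card_sub]
      have := Nat.choose_le_choose 4 hn5
      have h : Nat.choose 5 4 = 5 := by decide
      omega
    obtain ⟨T, U, hTU⟩ := Fintype.exists_pair_of_one_lt_card h5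
    refine ⟨_, hmem T, _, hmem U, fun h => ?_⟩
    have := congrArg (fun w : EuclideanSpace ℝ {T : Finset (Fin n) // T.card = 4} => w T) h
    simp [hTU] at this
  obtain ⟨m, hm, A, hA1, hA2⟩ := Pool.Agent.MP_dd77b8_co.H73.all_subsets n 3 X
    (by rintro f ⟨g, hg, -⟩; exact ⟨g, hg⟩) hb hne
  have h1 := hN n hnN X hX m A hA1 hA2
  have h2 := hN' n hnN' (2 * n.choose (3 + 1) + 1) (by
    push_cast
    apply le_of_eq
    ring)
  have h3 : (m : ℝ) ≤ ((3 ^ n.choose 3 *
      (n.choose (3 + 1) * (2 * n.choose (3 + 1) + 1) + 1) ^ (n.choose 3 + 1) : ℕ) : ℝ) := by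
    exact_mod_cast hm
  exact absurd (lt_of_le_of_lt h3 h2) (not_lt.2 h1)

end Pool.Agent.S11888
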