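import Pool.Statements.S12400
import Pool.Agent.MP_f485b3_co.H43.Lists

set_option autoImplicit false
open Pool Pool.MP_f485b3_co

namespace Pool.Agent.S12400

/-- The negation of the preceding statement: Every complete sparse ruler (list of positive segment lengths) that is both minimal and maximal and has more than 13 segments is a Wichmann ruler W(r,s) or its reversal, for some natural numbers r and s. -/
theorem result :
    ¬ (∀ g : List ℕ, (∀ x ∈ g, 0 < x) →
      (∀ k ≤ g.sum, ∃ i ≤ g.length, ∃ j ≤ g.length, (g.take i).sum + k = (g.take j).sum) →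
      (∀ h : List ℕ, (∀ x ∈ h, 0 < x) →
        (∀ k ≤ h.sum, ∃ i ≤ h.length, ∃ j ≤ h.length, (h.take i).sum + k = (h.take j).sum) →
        h.sum = g.sum → g.length ≤ h.length) →
      (∀ h : List ℕ, (∀ x ∈ h, 0 < x) →
        (∀ k ≤ h.sum, ∃ i ≤ h.length, ∃ j ≤ h.length, (h.take i).sum + k = (h.take j).sum) →
        h.length = g.length → h.sum ≤ g.sum) →
      13 < g.length →
      ∃ r s : ℕ,
        g = List.replicate r 1 ++ [r + 1] ++ List.replicate r (2 * r + 1) ++
              List.replicate s (4 * r + 3) ++ List.replicate (r + 1) (2 * r + 2) ++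
              List.replicate r 1 ∨
        g = (List.replicate r 1 ++ [r + 1] ++ List.replicate r (2 * r + 1) ++
              List.replicate s (4 * r + 3) ++ List.replicate (r + 1) (2 * r + 2) ++
              List.replicate r 1).reverse) := by
  intro H
  obtain ⟨g0, h0, h1, h2⟩ := Pool.Agent.MP_f485b3_co.H43.long 1000
  obtain ⟨g, k1, k2, k3, k4, k5⟩ := Pool.Agent.MP_f485b3_co.H43.optimal h0
  obtain ⟨r, s, h⟩ := H g k1.1 k1.2 (fun h a b c => k4 h ⟨a, b⟩ c) (fun h a b c => k5 h ⟨a, b⟩ c)
    (by omega)
  have key : 3 * g.sum ≤ g.length ^ 2 + 3 * g.length := by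
    rcases h with h | h
    · exact Pool.Agent.MP_f485b3_co.H43.wich r s g h
    · have := Pool.Agent.MP_f485b3_co.H43.wich r s g.reverse (by rw [h, List.reverse_reverse])
      simpa using this
  rw [k2] at key
  nlinarith

end Pool.Agent.S12400
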