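import Pool.Statements.S12837
import Pool.Agent.MP_1ac210_gt.H95.Main

set_option autoImplicit false
open Pool Pool.MP_1ac210_gt

namespace Pool.Agent.S12837

/-- For every nondegenerate compact connected metric space that is hereditarily indecomposable and chainable (i.e. the pseudo-arc), the set of self-homeomorphisms is connected in the compact-open topology. -/
theorem result :
    ∀ (X : Type) [MetricSpace X] [CompactSpace X] [ConnectedSpace X] [Nontrivial X],
      (∀ A B : Set X, IsClosed A → IsConnected A → IsClosed B → IsConnected B →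
          (A ∩ B).Nonempty → A ⊆ B ∨ B ⊆ A) →
      (∀ ε : ℝ, 0 < ε → ∃ (n : ℕ) (U : ℕ → Set X),
          (∀ i, i < n → IsOpen (U i) ∧ Metric.diam (U i) < ε) ∧
          (∀ x : X, ∃ i, i < n ∧ x ∈ U i) ∧
          (∀ i j, i < n → j < n → ((U i ∩ U j).Nonempty ↔ (i ≤ j + 1 ∧ j ≤ i + 1)))) →
      IsPreconnected {f : C(X, X) | Function.Bijective (f : X → X)} := by
  intro X _ _ _ _ h1 h2
  exact Pool.Agent.MP_1ac210_gt.H95.preconnected h1 (Pool.Agent.MP_1ac210_gt.H95.fine_of_chain h2)

end Pool.Agent.S12837
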