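import Pool.Statements.S13188

set_option autoImplicit false
open Pool Pool.MP_55e428_gt

namespace Pool.Agent.S13188

open Set Filter Topology

/-- The one-point compactification of an uncountable discrete set, inside the product. -/
def KK : Set (ℝ → ℝ) :=
  {x | (∀ γ, x γ = 0 ∨ x γ = 1) ∧ ∀ γ δ, γ ≠ δ → x γ * x δ = 0}

lemma KK_compact : IsCompact KK := by
  have h1 : IsCompact (Set.pi univ (fun _ : ℝ => Icc (0:ℝ) 1)) :=
    isCompact_univ_pi fun _ => isCompact_Icc
  refine h1.of_isClosed_subset ?_ ?_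
  · have : KK = (⋂ γ, ({x : ℝ → ℝ | x γ = 0} ∪ {x | x γ = 1})) ∩
        ⋂ γ, ⋂ δ, ⋂ (_ : γ ≠ δ), {x : ℝ → ℝ | x γ * x δ = 0} := by
      ext x; simp [KK]
    rw [this]
    refine IsClosed.inter (isClosed_iInter fun γ => IsClosed.union ?_ ?_)
      (isClosed_iInter fun γ => isClosed_iInter fun δ => isClosed_iInter fun _ => ?_)
    · exact isClosed_eq (continuous_apply γ) continuous_const
    · exact isClosed_eq (continuous_apply γ) continuous_const
    · exact isClosed_eq ((continuous_apply γ).mul (continuous_apply δ)) continuous_const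
  · intro x hx γ _
    rcases hx.1 γ with h | h <;> simp [h]

lemma KK_c0 : ∀ x ∈ KK, ∀ ε : ℝ, 0 < ε → {γ : ℝ | ε < |x γ|}.Finite := by
  intro x hx ε hε
  apply Set.Subsingleton.finite
  intro γ hγ δ hδ
  by_contra hne
  have h := hx.2 γ δ hne
  simp only [mem_ofPred_eq] at hγ hδ
  rcases mul_eq_zero.1 h with h | h
  · rw [h, abs_zero] at hγ; linarith
  · rw [h, abs_zero] at hδ; linarith

noncomputable def ee (γ : ℝ) : ℝ → ℝ := fun δ => if δ = γ then 1 else 0

lemma ee_mem (γ : ℝ) : ee γ ∈ KK := by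
  refine ⟨fun δ => ?_, fun a b hab => ?_⟩
  · unfold ee; split_ifs <;> simp
  · unfold ee; split_ifs with h1 h2 <;> simp_all

lemma zero_mem : (0 : ℝ → ℝ) ∈ KK := ⟨fun _ => Or.inl rfl, fun _ _ _ => by simp⟩

noncomputable def eK (γ : ℝ) : KK := ⟨ee γ, ee_mem γ⟩
def oK : KK := ⟨0, zero_mem⟩

lemma tendsto_eK : Tendsto eK cofinite (𝓝 oK) := by
  rw [tendsto_subtype_rng, tendsto_pi_nhds]
  intro δ
  refine tendsto_const_nhds.congr' ?_
  filter_upwards [(Set.finite_singleton δ).compl_mem_cofinite] with γ hγ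
  have : δ ≠ γ := fun h => hγ (by simp [h])
  simp [eK, oK, ee, this]

def Yn (n : ℕ) : Set (ℝ → ℝ) :=
  {y | (∀ γ, y γ ∈ Icc (0:ℝ) n) ∧ ∀ s : Finset ℝ, s.card = n → ∏ γ ∈ s, y γ = 0}

lemma Yn_compact (n : ℕ) : IsCompact (Yn n) := by
  have h1 : IsCompact (Set.pi univ (fun _ : ℝ => Icc (0:ℝ) n)) :=
    isCompact_univ_pi fun _ => isCompact_Icc
  have h2 : IsClosed {y : ℝ → ℝ | ∀ s : Finset ℝ, s.card = n → ∏ γ ∈ s, y γ = 0} := by
    have : {y : ℝ → ℝ | ∀ s : Finset ℝ, s.card = n → ∏ γ ∈ s, y γ = 0} =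
        ⋂ s : Finset ℝ, ⋂ (_ : s.card = n), {y : ℝ → ℝ | ∏ γ ∈ s, y γ = 0} := by
      ext y; simp
    rw [this]
    exact isClosed_iInter fun s => isClosed_iInter fun _ =>
      isClosed_eq (continuous_finsetProd _ fun γ _ => continuous_apply γ) continuous_const
  have : Yn n = Set.pi univ (fun _ : ℝ => Icc (0:ℝ) n) ∩
      {y : ℝ → ℝ | ∀ s : Finset ℝ, s.card = n → ∏ γ ∈ s, y γ = 0} := by
    ext y; simp only [Yn, Set.mem_pi, mem_inter_iff, mem_ofPred_eq, mem_univ, forall_true_left]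
  rw [this]
  exact h1.inter_right h2

def YY : Set (ℝ → ℝ) := ⋃ n, Yn n

lemma YY_sigma : IsSigmaCompact YY := isSigmaCompact_iUnion_of_isCompact _ Yn_compact

lemma mem_YY {y : ℝ → ℝ} : y ∈ YY ↔ (∀ γ, 0 ≤ y γ) ∧ (Function.support y).Finite := by
  classical
  constructor
  · intro hy
    obtain ⟨n, hn⟩ := mem_iUnion.1 hy
    refine ⟨fun γ => (hn.1 γ).1, ?_⟩
    by_contra hinf
    obtain ⟨s, hs, hcard⟩ := Set.Infinite.exists_subset_card_eq hinf n
    have := hn.2 s hcard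
    rw [Finset.prod_eq_zero_iff] at this
    obtain ⟨γ, hγ, h0⟩ := this
    exact (hs hγ) h0
  · rintro ⟨h0, hfin⟩
    obtain ⟨B, hB⟩ : ∃ B : ℝ, ∀ γ, y γ ≤ B := by
      refine ⟨∑ γ ∈ hfin.toFinset, y γ, fun γ => ?_⟩
      by_cases hγ : y γ = 0
      · rw [hγ]; exact Finset.sum_nonneg fun a _ => h0 a
      · exact Finset.single_le_sum (f := y) (fun a _ => h0 a) (by simpa using hγ)
    obtain ⟨m, hm⟩ := exists_nat_ge B
    refine mem_iUnion.2 ⟨max m (hfin.toFinset.card + 1), fun γ => ⟨h0 γ, ?_⟩, fun s hs => ?_⟩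
    · refine (hB γ).trans (hm.trans ?_)
      exact_mod_cast le_max_left _ _
    · have hlt : hfin.toFinset.card < s.card := by
        rw [hs]; exact lt_of_lt_of_le (Nat.lt_succ_self _) (le_max_right _ _)
      obtain ⟨γ, hγ, hγ'⟩ := Finset.exists_mem_notMem_of_card_lt_card hlt
      exact Finset.prod_eq_zero hγ (by simpa using hγ')

noncomputable def phi0 (f : {f : KK → ℝ // Continuous f}) : ℝ → ℝ :=
  fun γ => max (|f.1 (eK γ) - f.1 oK| - 1) 0

lemma phi0_mem (f : {f : KK → ℝ // Continuous f}) : phi0 f ∈ YY := by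
  refine mem_YY.2 ⟨fun γ => le_max_right _ _, ?_⟩
  have h1 : Tendsto (fun γ => f.1 (eK γ)) cofinite (𝓝 (f.1 oK)) :=
    (f.2.tendsto oK).comp tendsto_eK
  have h2 : ∀ᶠ γ in cofinite, dist (f.1 (eK γ)) (f.1 oK) < 1 :=
    (Metric.tendsto_nhds.1 h1) 1 one_pos
  refine (Filter.eventually_cofinite.1 h2).subset fun γ hγ h => hγ ?_
  rw [Real.dist_eq] at h
  exact max_eq_right (by linarith)

noncomputable def phi (f : {f : KK → ℝ // Continuous f}) : YY := ⟨phi0 f, phi0_mem f⟩

lemma phi_cont : Continuous phi := by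
  refine Continuous.subtype_mk (continuous_pi fun γ => ?_) _
  have h : ∀ x : KK, Continuous fun f : {f : KK → ℝ // Continuous f} => f.1 x :=
    fun x => (continuous_apply x).comp continuous_subtype_val
  exact ((((h _).sub (h _)).abs).sub continuous_const).max continuous_const

lemma phi_surj : Function.Surjective phi := by
  classical
  rintro ⟨y, hy⟩
  obtain ⟨h0, hfin⟩ := mem_YY.1 hy
  refine ⟨⟨fun x => ∑ δ ∈ hfin.toFinset, (y δ + 1) * x.1 δ, ?_⟩, ?_⟩
  · exact continuous_finsetSum _ fun δ _ =>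
      continuous_const.mul ((continuous_apply δ).comp continuous_subtype_val)
  · apply Subtype.ext
    funext γ
    simp only [phi, phi0, eK, oK, ee, Pi.zero_apply, mul_zero, Finset.sum_const_zero, sub_zero,
      mul_ite, mul_one, Finset.sum_ite_eq', Set.Finite.mem_toFinset, Function.mem_support]
    by_cases hγ : y γ = 0
    · simp [hγ]
    · have := h0 γ
      rw [if_pos hγ, abs_of_nonneg (by linarith)]
      simp [this]

lemma ee_mem_YY (γ : ℝ) : ee γ ∈ YY := by
  refine mem_YY.2 ⟨fun δ => ?_, (Set.finite_singleton γ).subset fun δ hδ => ?_⟩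
  · unfold ee; split_ifs <;> simp
  · by_contra h
    have : δ ≠ γ := fun h' => h (by simp [h'])
    exact hδ (by simp [ee, this])

/-- The negation of the preceding statement. -/
theorem result :
    ¬ (∀ (Γ : Type) (K : Set (Γ → ℝ)), IsCompact K →
      (∀ x ∈ K, ∀ ε : ℝ, 0 < ε → {γ : Γ | ε < |x γ|}.Finite) →
      ∀ (Y : Type) [TopologicalSpace Y] [T35Space Y] [SigmaCompactSpace Y]
        (φ : {f : K → ℝ // Continuous f} → Y), Continuous φ → Function.Surjective φ →
        ∃ N : Set (Set Y), N.Countable ∧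
          ∀ U : Set Y, IsOpen U → ∀ y ∈ U, ∃ A ∈ N, y ∈ A ∧ A ⊆ U) := by
  intro h
  have : SigmaCompactSpace YY := isSigmaCompact_iff_sigmaCompactSpace.1 YY_sigma
  obtain ⟨N, hN, hnet⟩ := h ℝ KK KK_compact KK_c0 YY phi phi_cont phi_surj
  have key : ∀ γ : ℝ, ∃ A ∈ N, (⟨ee γ, ee_mem_YY γ⟩ : YY) ∈ A ∧ A ⊆ {y : YY | 1 / 2 < y.1 γ} := by
    intro γ
    refine hnet _ (isOpen_lt continuous_const
      ((continuous_apply γ).comp continuous_subtype_val)) _ ?_
    simp [ee]; norm_num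
  choose A hAN hA1 hA2 using key
  have hinj : Function.Injective A := by
    intro γ δ hγδ
    have h1 := hA2 γ (hγδ ▸ hA1 δ)
    by_contra hne
    simp [ee, hne] at h1
    norm_num at h1
  have hc : (univ : Set ℝ).Countable :=
    Set.MapsTo.countable_of_injOn (f := A) (fun γ _ => hAN γ) hinj.injOn hN
  exact Cardinal.not_countable_real hc

end Pool.Agent.S13188
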