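import Pool.Statements.S13437
import Pool.Agent.MP_7d36bd_gt.H41.Space

set_option autoImplicit false
open Pool Pool.MP_7d36bd_gt

namespace Pool.Agent.S13437

/-- There is a T1 hereditarily Lindelöf space with some neighbourhood assignment x ↦ U(x) such that no discrete subspace D has the sets U(x), x in D, covering the whole space. -/
theorem result :
    ∃ (X : Type) (_ : TopologicalSpace X),
      T1Space X ∧ HereditarilyLindelofSpace X ∧
      ¬ (∀ U : X → Set X, (∀ x, U x ∈ nhds x) →
          ∃ D : Set X, DiscreteTopology D ∧ (⋃ x ∈ D, U x) = Set.univ) := by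
  exact ⟨Pool.Agent.MP_7d36bd_gt.H41.Tr, Pool.Agent.MP_7d36bd_gt.H41.top,
    Pool.Agent.MP_7d36bd_gt.H41.t1, Pool.Agent.MP_7d36bd_gt.H41.hl,
    Pool.Agent.MP_7d36bd_gt.H41.not_dd⟩

end Pool.Agent.S13437
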