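import Pool.Statements.S13784
import Pool.Agent.MP_b3099b_gt.H24.Space

set_option autoImplicit false
open Pool Pool.MP_b3099b_gt

namespace Pool.Agent.S13784

/-- The negation of the preceding statement: A T1 space is Fréchet and semistratifiable if and only if it is the image of some semimetrizable space under a continuous closed surjection. -/
theorem result :
    ¬ (∀ (Y : Type) [TopologicalSpace Y], T1Space Y →
      ((FrechetUrysohnSpace Y ∧
        ∃ G : Set Y → ℕ → Set Y,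
          (∀ F : Set Y, IsClosed F → ∀ n, IsOpen (G F n)) ∧
          (∀ F : Set Y, IsClosed F → ⋂ n, G F n = F) ∧
          (∀ F K : Set Y, IsClosed F → IsClosed K → F ⊆ K → ∀ n, G F n ⊆ G K n))
      ↔
      ∃ (X : Type) (_ : TopologicalSpace X) (d : X → X → ℝ),
        (∀ x y, 0 ≤ d x y) ∧ (∀ x y, d x y = 0 ↔ x = y) ∧ (∀ x y, d x y = d y x) ∧
        (∀ x, (nhds x).HasBasis (fun ε : ℝ => 0 < ε) (fun ε => {y | d x y < ε})) ∧
        ∃ f : X → Y, Continuous f ∧ IsClosedMap f ∧ Function.Surjective f)) := by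
  intro h
  obtain ⟨X, hX, 𝒜, ℬ, hCF, horth, hsplit⟩ := Pool.Agent.MP_b3099b_gt.H24.exists_split
  let τ := Pool.Agent.MP_b3099b_gt.H24.topo X ℬ
  have hT1 : T1Space Pool.Agent.MP_b3099b_gt.H24.Pt := Pool.Agent.MP_b3099b_gt.H24.topo_t1 X ℬ
  have hFr : FrechetUrysohnSpace Pool.Agent.MP_b3099b_gt.H24.Pt :=
    Pool.Agent.MP_b3099b_gt.H24.topo_frechet X ℬ fun Z hZ hp => (hsplit Z hZ hp).2
  obtain ⟨W, τW, d, hd0, hd1, hd2, hbasis, f, hf, hcl, hsurj⟩ :=
    (h Pool.Agent.MP_b3099b_gt.H24.Pt hT1).mp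
      ⟨hFr, Pool.Agent.MP_b3099b_gt.H24.semistrat_of_countable _⟩
  refine Pool.Agent.MP_b3099b_gt.H24.not_closed_image X hX 𝒜 ℬ hCF horth
    (fun Z hZ hp => (hsplit Z hZ hp).1) W ?_ f hf hcl hsurj
  intro x
  refine ⟨fun n => interior {y | d x y < 1 / ((n : ℝ) + 1)}, ?_, ?_, ?_⟩
  · intro m n hmn
    refine interior_mono ?_
    intro y hy
    have h1 : (1 : ℝ) / ((n : ℝ) + 1) ≤ 1 / ((m : ℝ) + 1) := Nat.one_div_le_one_div hmn
    exact lt_of_lt_of_le hy h1
  · intro n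
    refine ⟨isOpen_interior, ?_⟩
    rw [mem_interior_iff_mem_nhds]
    exact (hbasis x).mem_of_mem Nat.one_div_pos_of_nat
  · intro V hV hxV
    obtain ⟨ε, hε, hsub⟩ := (hbasis x).mem_iff.mp (hV.mem_nhds hxV)
    obtain ⟨n, hn⟩ := exists_nat_one_div_lt hε
    refine ⟨n, interior_subset.trans (Set.Subset.trans ?_ hsub)⟩
    intro y hy
    exact lt_trans hy hn

end Pool.Agent.S13784
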