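import Pool.Statements.S13883
import Pool.Agent.MP_c2bc14_gt.H38.Main

set_option autoImplicit false
open Pool Pool.MP_c2bc14_gt

namespace Pool.Agent.S13883

/-- Suppose X is compact Hausdorff and every subset A of X equals f⁻¹(f(A)) for some continuous f from X to a Corson compactum. Then the same holds for every subset of X × X. -/
theorem result :
    ∀ (X : Type) [TopologicalSpace X] [CompactSpace X] [T2Space X],
      (∀ A : Set X, ∃ (Y : Type) (tY : TopologicalSpace Y), CompactSpace Y ∧
        (∃ (κ : Type) (e : Y → κ → ℝ), Topology.IsEmbedding e ∧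
          ∀ y, {i : κ | e y i ≠ 0}.Countable) ∧
        ∃ f : X → Y, Continuous f ∧ f ⁻¹' (f '' A) = A) →
      (∀ A : Set (X × X), ∃ (Y : Type) (tY : TopologicalSpace Y), CompactSpace Y ∧
        (∃ (κ : Type) (e : Y → κ → ℝ), Topology.IsEmbedding e ∧
          ∀ y, {i : κ | e y i ≠ 0}.Countable) ∧
        ∃ f : X × X → Y, Continuous f ∧ f ⁻¹' (f '' A) = A) := by
  intro X _ _ _ h A
  have hS : Pool.Agent.MP_c2bc14_gt.H38.Split X := by
    intro B
    obtain ⟨Y, tY, _, ⟨κ, e, he, hc⟩, f, hf, hB⟩ := h B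
    refine ⟨κ, fun x => e (f x), he.continuous.comp hf, fun x => hc (f x), ?_⟩
    intro x hx y hy hxy
    apply hy
    rw [← hB]
    exact ⟨x, hx, he.injective hxy⟩
  obtain ⟨Γ, g, hg, hi, hc⟩ := hS.cor
  refine ⟨X × X, inferInstance, inferInstance,
    ⟨Γ ⊕ Γ, fun p i => Sum.elim (g p.1) (g p.2) i, ?_, ?_⟩, id, continuous_id, by simp⟩
  · refine (Continuous.isClosedEmbedding ?_ ?_).isEmbedding
    · refine continuous_pi fun i => ?_
      rcases i with i | i
      · exact (continuous_apply i).comp (hg.comp continuous_fst)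
      · exact (continuous_apply i).comp (hg.comp continuous_snd)
    · intro p q hpq
      exact Prod.ext (hi (funext fun i => congrFun hpq (Sum.inl i)))
        (hi (funext fun i => congrFun hpq (Sum.inr i)))
  · intro p
    refine Set.Countable.mono (s₂ := Sum.inl '' {i | g p.1 i ≠ 0} ∪ Sum.inr '' {i | g p.2 i ≠ 0}) ?_
      (((hc p.1).image _).union ((hc p.2).image _))
    rintro (i | i) hi
    · exact Or.inl ⟨i, hi, rfl⟩
    · exact Or.inr ⟨i, hi, rfl⟩

end Pool.Agent.S13883
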