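import Pool.Statements.S14032
import Pool.Agent.MP_d722ac_gt.H93.Main

set_option autoImplicit false
open Pool Pool.MP_d722ac_gt

namespace Pool.Agent.S14032

/-- The negation of the preceding statement: There is an absolute constant C such that for every n and every origin-symmetric convex body K in R^n, the sphere-average over directions u of the volume of the polar of the Steiner symmetral of K in direction u is at most C times the volume of the polar of K. -/
theorem result :
    ¬ (∃ C : NNReal, ∀ n : ℕ, 1 ≤ n →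
      ∀ K : ConvexBody (EuclideanSpace ℝ (Fin n)),
        (∀ x ∈ K, -x ∈ K) →
        (interior (K : Set (EuclideanSpace ℝ (Fin n)))).Nonempty →
        ∫⁻ y in Metric.ball (0 : EuclideanSpace ℝ (Fin n)) 1,
            MeasureTheory.volume
              {z : EuclideanSpace ℝ (Fin n) |
                ∀ x ∈ {w : EuclideanSpace ℝ (Fin n) |
                    (∃ s : ℝ, w - (inner ℝ w (‖y‖⁻¹ • y)) • (‖y‖⁻¹ • y) + s • (‖y‖⁻¹ • y) ∈ K) ∧
                    ENNReal.ofReal (2 * |inner ℝ w (‖y‖⁻¹ • y)|) ≤
                      MeasureTheory.volume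
                        {s : ℝ | w - (inner ℝ w (‖y‖⁻¹ • y)) • (‖y‖⁻¹ • y) + s • (‖y‖⁻¹ • y) ∈ K}},
                  inner ℝ x z ≤ (1 : ℝ)}
          ≤ (C : ENNReal) * MeasureTheory.volume (Metric.ball (0 : EuclideanSpace ℝ (Fin n)) 1)
              * MeasureTheory.volume {z : EuclideanSpace ℝ (Fin n) | ∀ x ∈ K, inner ℝ x z ≤ (1 : ℝ)}) := by
  rintro ⟨C, h⟩
  obtain ⟨m, K, h1, h2, h3⟩ := Pool.Agent.MP_d722ac_gt.H93.main C
  exact absurd (h (m + m + 1) (Nat.le_add_left 1 _) K h1 h2) (not_le.2 h3)

end Pool.Agent.S14032
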