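import Pool.Statements.S14141
import Pool.Agent.MP_e5a18e_gt.H61.Space

set_option autoImplicit false
open Pool Pool.MP_e5a18e_gt

namespace Pool.Agent.S14141

/-- There is a completely regular Lindelöf topological space X whose square X × X, with the product topology, is paracompact but not Lindelöf. -/
theorem result :
    ∃ (X : Type) (_ : TopologicalSpace X),
      CompletelyRegularSpace X ∧ LindelofSpace X ∧
        ParacompactSpace (X × X) ∧ ¬ LindelofSpace (X × X) := by
  obtain ⟨X, t, h1, h2, h3, h4⟩ := Pool.Agent.MP_e5a18e_gt.H61.main
  exact ⟨X, t, h1.toCompletelyRegularSpace, h2, h3, h4⟩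

end Pool.Agent.S14141
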