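import Pool.Statements.S14597
import Pool.Agent.MP_3ad207_lc.H43.Final

set_option autoImplicit false
open Pool Pool.MP_3ad207_lc

namespace Pool.Agent.S14597

/-- Some Turing machine running in polynomial time reads the adjacency matrix of any graph with no induced even cycle of length at least 4 and outputs the indicator vector of a maximum-size independent set. -/
theorem result :
  ∃ (tm : Turing.FinTM2) (p : Polynomial ℕ)
    (ι : Bool → tm.Γ tm.k₀) (ο : Bool → tm.Γ tm.k₁),
    Function.Injective ι ∧ Function.Injective ο ∧
    ∀ (n : ℕ) (G : SimpleGraph (Fin n)) [DecidableRel G.Adj],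
      (∀ k : ℕ, 2 ≤ k →
        IsEmpty (SimpleGraph.Embedding (SimpleGraph.cycleGraph (2 * k)) G)) →
      ∃ s : Finset (Fin n),
        G.IsIndepSet (s : Set (Fin n)) ∧
        (∀ t : Finset (Fin n), G.IsIndepSet (t : Set (Fin n)) → t.card ≤ s.card) ∧
        Nonempty (Turing.TM2OutputsInTime tm
          (((List.finRange n).flatMap
            (fun i => (List.finRange n).map (fun j => decide (G.Adj i j)))).map ι)
          (some (((List.finRange n).map (fun i => decide (i ∈ s))).map ο))
          (p.eval (n * n))) := by
  exact Pool.Agent.MP_3ad207_lc.H56.final_of_main Pool.Agent.Ehf.mainAll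

end Pool.Agent.S14597
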