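import Pool.Statements.S16581
import Pool.Agent.MP_3827f0_nt.H92.Main

set_option autoImplicit false
open scoped Classical Topology
open Pool Pool.MP_3827f0_nt

namespace Pool.Agent.S16581

/-- For every d ≥ 2 there is B such that any two degree-d rational maps of the Riemann sphere with different Julia sets have at most B common preperiodic points. -/
theorem result :
  ∀ d : ℕ, 2 ≤ d → ∃ B : ℕ, ∀ f g : OnePoint ℂ → OnePoint ℂ,
    (∃ P Q : MvPolynomial (Fin 2) ℂ, P.IsHomogeneous d ∧ Q.IsHomogeneous d ∧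
      (∀ x y : ℂ, MvPolynomial.eval ![x, y] P = 0 → MvPolynomial.eval ![x, y] Q = 0 →
        x = 0 ∧ y = 0) ∧
      ∀ x y : ℂ, (x ≠ 0 ∨ y ≠ 0) →
        f (if y = 0 then OnePoint.infty else OnePoint.some (x / y)) =
          (if MvPolynomial.eval ![x, y] Q = 0 then OnePoint.infty
           else OnePoint.some (MvPolynomial.eval ![x, y] P / MvPolynomial.eval ![x, y] Q))) →
    (∃ P Q : MvPolynomial (Fin 2) ℂ, P.IsHomogeneous d ∧ Q.IsHomogeneous d ∧
      (∀ x y : ℂ, MvPolynomial.eval ![x, y] P = 0 → MvPolynomial.eval ![x, y] Q = 0 →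
        x = 0 ∧ y = 0) ∧
      ∀ x y : ℂ, (x ≠ 0 ∨ y ≠ 0) →
        g (if y = 0 then OnePoint.infty else OnePoint.some (x / y)) =
          (if MvPolynomial.eval ![x, y] Q = 0 then OnePoint.infty
           else OnePoint.some (MvPolynomial.eval ![x, y] P / MvPolynomial.eval ![x, y] Q))) →
    {z : OnePoint ℂ | ∀ U ∈ 𝓝 z, (⋃ n : ℕ, f^[n] '' U)ᶜ.Finite} ≠
      {z : OnePoint ℂ | ∀ U ∈ 𝓝 z, (⋃ n : ℕ, g^[n] '' U)ᶜ.Finite} →
    ({z : OnePoint ℂ | ∃ m n : ℕ, m < n ∧ f^[m] z = f^[n] z} ∩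
      {z : OnePoint ℂ | ∃ m n : ℕ, m < n ∧ g^[m] z = g^[n] z}).encard ≤ (B : ℕ∞) := by
  intro d hd
  obtain ⟨B, hB⟩ := Pool.Agent.MP_3827f0_nt.H92.uniform_bound hd
  refine ⟨B, fun f g hf hg hne => ?_⟩
  obtain ⟨F, h1, h2, h3⟩ := Pool.Agent.MP_3827f0_nt.H92.exists_hom_lift (d := d) (f := f) hf
  obtain ⟨F', h1', h2', h3'⟩ := Pool.Agent.MP_3827f0_nt.H92.exists_hom_lift (d := d) (f := g) hg
  exact hB f g F F' h1 h2 h3 h1' h2' h3' hne

end Pool.Agent.S16581
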