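import Pool.Statements.S16932
import Pool.Agent.MP_507a17_nt.H83.Atoms

set_option autoImplicit false
open Pool Pool.MP_507a17_nt

namespace Pool.Agent.S16932

/-- The negation of the preceding statement: For every d ≥ 1 there is C such that for every probability measure μ on [0,1]^d and every N ≥ 2 some N points in [0,1]^d have star-discrepancy w.r.t. μ at most C (log N)^(d-1)/N. -/
theorem result :
    ¬ (∀ d : ℕ, 1 ≤ d →
      ∃ C : ℝ, ∀ μ : MeasureTheory.Measure (Fin d → ℝ),
        MeasureTheory.IsProbabilityMeasure μ →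
        μ (Set.Icc (0 : Fin d → ℝ) 1)ᶜ = 0 →
        ∀ N : ℕ, 2 ≤ N →
          ∃ x : Fin N → (Fin d → ℝ),
            (∀ n, x n ∈ Set.Icc (0 : Fin d → ℝ) 1) ∧
            ∀ y : Fin d → ℝ,
              |((Finset.univ.filter (fun n : Fin N => ∀ i, x n i < y i)).card : ℝ) / (N : ℝ)
                  - (μ {z : Fin d → ℝ | ∀ i, z i < y i}).toReal|
                ≤ C * (Real.log (N : ℝ)) ^ (d - 1) / (N : ℝ)) := by
  intro h
  obtain ⟨C, hC⟩ := h 3 (by norm_num)
  obtain ⟨μ, h1, h2, M, hM, h3⟩ := Pool.Agent.MP_507a17_nt.H83.not_rate C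
  obtain ⟨x, hx, h4⟩ := hC μ h1 h2 M hM
  exact h3 x hx fun y => by convert h4 y

end Pool.Agent.S16932
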