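import Pool.Statements.S18406
import Pool.Agent.MP_c36293_nt.H70.Points

set_option autoImplicit false
open Classical
open Pool Pool.MP_c36293_nt

namespace Pool.Agent.S18406

/-- Counterexample (d = 2, p = 1): the `M × M` grid, `M = k ^ 2`, with the first `k` columns squeezed
vertically by the factor 4; the `M ^ 2` points are pairwise distinct (`pts_injective`).
The negation of the preceding statement: For every dimension d and every p ≥ 1 there is C such that for every N-point set in [0,1)^d, the p-th power periodic L_p discrepancy is at most C times the p-th power extreme L_p discrepancy. -/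
theorem result :
    ¬ (∀ (d : ℕ), 1 ≤ d → ∀ (p : ℝ), 1 ≤ p → ∃ C : ℝ, 0 < C ∧
      ∀ (N : ℕ), 1 ≤ N → ∀ P : Fin N → Fin d → ℝ, (∀ i j, 0 ≤ P i j ∧ P i j < 1) →
        (∫ x in Set.Icc (0 : Fin d → ℝ) 1, ∫ y in Set.Icc (0 : Fin d → ℝ) 1,
          |((Finset.univ.filter (fun i : Fin N => ∀ j : Fin d,
              (x j ≤ y j ∧ x j ≤ P i j ∧ P i j < y j) ∨
              (y j < x j ∧ (P i j < y j ∨ x j ≤ P i j)))).card : ℝ)
            - (N : ℝ) * ∏ j : Fin d, (if x j ≤ y j then y j - x j else 1 - x j + y j)| ^ p)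
        ≤ C * ∫ x in Set.Icc (0 : Fin d → ℝ) 1, ∫ y in Set.Icc (0 : Fin d → ℝ) 1,
          (if x ≤ y then
            |((Finset.univ.filter (fun i : Fin N => ∀ j : Fin d,
                x j ≤ P i j ∧ P i j < y j)).card : ℝ)
              - (N : ℝ) * ∏ j : Fin d, (y j - x j)| ^ p
           else 0)) := by
  intro H
  obtain ⟨C, hC, H⟩ := H 2 (by norm_num) 1 le_rfl
  obtain ⟨k, hk⟩ := exists_nat_gt (3072 * C + 16)
  have hk4 : 4 ≤ k := by
    have : (4 : ℝ) ≤ k := by linarith
    exact_mod_cast this
  have hk4' : (4 : ℝ) ≤ k := by exact_mod_cast hk4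
  set M : ℕ := k * k with hMdef
  have hM : 0 < M := by positivity
  have hkM : 4 * k ≤ M := Nat.mul_le_mul_right k hk4
  have hMr : (M : ℝ) = k * k := by rw [hMdef]; push_cast; ring
  have H1 := H (M * M) (Nat.mul_pos hM hM) (MP_c36293_nt.H70.pts M k)
    (MP_c36293_nt.H70.pts_mem M k)
  simp only [Real.rpow_one] at H1
  have hup := MP_c36293_nt.H70.upper_int
    (fun x y : Fin 2 → ℝ => if x ≤ y then
            |((Finset.univ.filter (fun i : Fin (M * M) => ∀ j : Fin 2,
                x j ≤ MP_c36293_nt.H70.pts M k i j ∧ MP_c36293_nt.H70.pts M k i j < y j)).card : ℝ)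
              - ((M * M : ℕ) : ℝ) * ∏ j : Fin 2, (y j - x j)|
           else 0)
    (fun x y => by split_ifs; exacts [abs_nonneg _, le_rfl]) (2 * M) (k * M) (k / M)
    (by positivity) (by positivity) (fun x hx y hy => by
      by_cases hxy : x ≤ y
      · rw [if_pos hxy, MP_c36293_nt.H70.card_pts M k
          (fun z => ∀ j : Fin 2, x j ≤ z j ∧ z j < y j)]
        convert MP_c36293_nt.H70.extr_bound M k hM (by omega) x y hx hy hxy
      · rw [if_neg hxy]
        split_ifs <;> positivity)
  have hlow := MP_c36293_nt.H70.lower_int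
    (fun x y : Fin 2 → ℝ =>
          |((Finset.univ.filter (fun i : Fin (M * M) => ∀ j : Fin 2,
              (x j ≤ y j ∧ x j ≤ MP_c36293_nt.H70.pts M k i j ∧ MP_c36293_nt.H70.pts M k i j < y j) ∨
              (y j < x j ∧ (MP_c36293_nt.H70.pts M k i j < y j ∨
                x j ≤ MP_c36293_nt.H70.pts M k i j)))).card : ℝ)
            - ((M * M : ℕ) : ℝ) * ∏ j : Fin 2, (if x j ≤ y j then y j - x j else 1 - x j + y j)|)
    (by
      simp only [← Finset.sum_boole]
      refine Measurable.abs (Measurable.sub (Finset.measurable_sum _ fun i _ => ?_)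
        (Measurable.const_mul (Finset.measurable_prod _ fun j _ => ?_) _))
      · refine Measurable.ite ?_ measurable_const measurable_const
        measurability
      · refine Measurable.ite ?_ (by fun_prop) (by fun_prop)
        exact measurableSet_le (by fun_prop) (by fun_prop))
    (2 * ((M * M : ℕ) : ℝ))
    (fun x hx y hy => by
      rw [abs_abs]
      have h1 : ((Finset.univ.filter (fun i : Fin (M * M) => ∀ j : Fin 2,
              (x j ≤ y j ∧ x j ≤ MP_c36293_nt.H70.pts M k i j ∧ MP_c36293_nt.H70.pts M k i j < y j) ∨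
              (y j < x j ∧ (MP_c36293_nt.H70.pts M k i j < y j ∨
                x j ≤ MP_c36293_nt.H70.pts M k i j)))).card : ℝ) ≤ ((M * M : ℕ) : ℝ) := by
        exact_mod_cast (Finset.card_filter_le _ _).trans (by simp)
      have h2 : ∀ j : Fin 2, 0 ≤ (if x j ≤ y j then y j - x j else 1 - x j + y j) ∧
          (if x j ≤ y j then y j - x j else 1 - x j + y j) ≤ 1 := by
        intro j
        have a1 : (0 : ℝ) ≤ x j := hx.1 j
        have a2 : x j ≤ 1 := hx.2 j
        have a3 : (0 : ℝ) ≤ y j := hy.1 j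
        have a4 : y j ≤ 1 := hy.2 j
        split_ifs with h
        · constructor <;> linarith
        · constructor <;> linarith
      have h3 : 0 ≤ ∏ j : Fin 2, (if x j ≤ y j then y j - x j else 1 - x j + y j) :=
        Finset.prod_nonneg fun j _ => (h2 j).1
      have h4 : ∏ j : Fin 2, (if x j ≤ y j then y j - x j else 1 - x j + y j) ≤ 1 :=
        Finset.prod_le_one (fun j _ => (h2 j).1) fun j _ => (h2 j).2
      have h5 : (0 : ℝ) ≤ ((M * M : ℕ) : ℝ) := by positivity
      have h6 := mul_le_mul_of_nonneg_left h4 h5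
      have h7 := mul_nonneg h5 h3
      rw [abs_le]
      constructor
      · have : (0 : ℝ) ≤ ((Finset.univ.filter (fun i : Fin (M * M) => ∀ j : Fin 2,
              (x j ≤ y j ∧ x j ≤ MP_c36293_nt.H70.pts M k i j ∧ MP_c36293_nt.H70.pts M k i j < y j) ∨
              (y j < x j ∧ (MP_c36293_nt.H70.pts M k i j < y j ∨
                x j ≤ MP_c36293_nt.H70.pts M k i j)))).card : ℝ) := by positivity
        linarith
      · linarith)
    (fun x y => abs_nonneg _) ((k : ℝ) * M / 4 - 2 * M - 1)
    (fun x hx y hy => by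
      rw [MP_c36293_nt.H70.card_pts M k (fun z => ∀ j : Fin 2,
        (x j ≤ y j ∧ x j ≤ z j ∧ z j < y j) ∨ (y j < x j ∧ (z j < y j ∨ x j ≤ z j)))]
      convert MP_c36293_nt.H70.per_bound M k hM hkM x y hx hy)
  have H2 := hlow.trans (H1.trans (mul_le_mul_of_nonneg_left hup hC.le))
  have hk0 : (0 : ℝ) < k := by linarith
  have e : (k : ℝ) * M * (k / M) = M := by
    rw [hMr]; field_simp
  rw [e, hMr] at H2
  have hkk : (16 : ℝ) ≤ k * k := by nlinarith
  have h3 : (3072 * C + 16) * (k * k) < k * (k * k) :=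
    mul_lt_mul_of_pos_right hk (by positivity)
  nlinarith

end Pool.Agent.S18406
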