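import Pool.Statements.S18863
import Pool.Agent.MP_ec1b19_nt.H49.Main
import Pool.Agent.MP_ec1b19_nt.H49.Link

set_option autoImplicit false
open Pool Pool.MP_ec1b19_nt

namespace Pool.Agent.S18863

/-- With Z(n) the sum over k from 0 to floor(n/3) of (-3)^(n-3k)(n+k)!/((n-3k)! k!^4), for every prime p at least 3, every m at least 1 and every r at least 2, Z(p^r m) is congruent to Z(p^(r-1) m) modulo p^(3r). -/
theorem result :
    ∀ Z : ℕ → ℤ,
      (∀ n : ℕ, Z n = ∑ k ∈ Finset.range (n / 3 + 1),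
          (-3 : ℤ) ^ (n - 3 * k) *
            (((Nat.factorial (n + k)) / (Nat.factorial (n - 3 * k) * (Nat.factorial k) ^ 4) : ℕ) : ℤ)) →
      ∀ p m r : ℕ, Nat.Prime p → 3 ≤ p → 1 ≤ m → 2 ≤ r →
        Int.ModEq ((p : ℤ) ^ (3 * r)) (Z (p ^ r * m)) (Z (p ^ (r - 1) * m)) := by
  intro Z hZ p m r hp h3 _ hr
  have : Fact p.Prime := ⟨hp⟩
  rw [hZ, hZ, Pool.Agent.MP_ec1b19_nt.H49.Z_eq_W, Pool.Agent.MP_ec1b19_nt.H49.Z_eq_W]
  exact Pool.Agent.MP_ec1b19_nt.H49.W_modEq (by omega) m r (by omega)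

end Pool.Agent.S18863
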