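import Pool.Statements.S19173
import Pool.Agent.MP_151d89_pr.H7.Top
import Pool.Agent.MP_151d89_pr.H35.E
import Pool.Agent.MP_151d89_pr.H31.MW
import Pool.Agent.MP_151d89_pr.H71.NB
import Pool.Agent.MP_151d89_pr.H70.PB
import Pool.Agent.MP_151d89_pr.H30W.Psi
import Pool.Agent.MP_151d89_pr.H30W.Ward
import Pool.Agent.MP_151d89_pr.H30W.Face
import Pool.Agent.MP_151d89_pr.H30W.Alt
import Pool.Agent.MP_151d89_pr.H30W.CHF
import Pool.Agent.MP_151d89_pr.H30W.ZF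
import Pool.Agent.MP_151d89_pr.H30W.Lab

set_option autoImplicit false
open MeasureTheory
open Pool Pool.MP_151d89_pr

namespace Pool.Agent.S19173

/-- Every extremal Gibbs measure for uniform graph homomorphisms ℤ² → ℤ is almost frozen: for some unit lattice vector e and every site u, almost surely (f(u+ne) − f(u))/n tends to 1. -/
theorem result :
  ∀ G : Set (MeasureTheory.Measure (ℤ × ℤ → ℤ)),
    G = {ν | MeasureTheory.IsProbabilityMeasure ν ∧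
      (∀ᵐ f ∂ν, ∀ x y : ℤ × ℤ, |x.1 - y.1| + |x.2 - y.2| = 1 → |f x - f y| = 1) ∧
      ∀ (Λ Δ : Finset (ℤ × ℤ)) (a b : ℤ × ℤ → ℤ),
        (∀ x y : ℤ × ℤ, |x.1 - y.1| + |x.2 - y.2| = 1 → |a x - a y| = 1) →
        (∀ x y : ℤ × ℤ, |x.1 - y.1| + |x.2 - y.2| = 1 → |b x - b y| = 1) →
        (∀ x, x ∉ Λ → a x = b x) →
        (∀ x ∈ Λ, x ∈ Δ ∧ ∀ y : ℤ × ℤ, |x.1 - y.1| + |x.2 - y.2| = 1 → y ∈ Δ) →
        ν {f | ∀ x ∈ Δ, f x = a x} = ν {f | ∀ x ∈ Δ, f x = b x}} →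
    ∀ μ ∈ G,
      (∀ ν₁ ∈ G, ∀ ν₂ ∈ G, ∀ t : ENNReal, 0 < t → t < 1 →
        μ = t • ν₁ + (1 - t) • ν₂ → ν₁ = ν₂) →
      ∃ e : ℤ × ℤ, |e.1| + |e.2| = 1 ∧ ∀ u : ℤ × ℤ, ∀ᵐ f ∂μ,
        Filter.Tendsto (fun n : ℕ => ((f (u + (n : ℤ) • e) - f u : ℤ) : ℝ) / (n : ℝ))
          Filter.atTop (nhds 1) := by
  rintro G rfl μ hμ hext
  have hP := MP_151d89_pr.H70.pb_row MP_151d89_pr.H30W.ward_row MP_151d89_pr.H30W.sum_row
    MP_151d89_pr.H30W.lab_row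
  exact MP_151d89_pr.H7.fin MP_151d89_pr.H30W.psi_row
    (MP_151d89_pr.H31.mw_glue MP_151d89_pr.H35.e_row MP_151d89_pr.H30W.psi_row
      MP_151d89_pr.H30W.sum_row)
    (MP_151d89_pr.H71.nb_row hP MP_151d89_pr.H30W.lab_row) hP
    (MP_151d89_pr.H30W.chf_row MP_151d89_pr.H30W.ward_row MP_151d89_pr.H30W.face_row)
    (MP_151d89_pr.H30W.zf_row MP_151d89_pr.H30W.ward_row MP_151d89_pr.H30W.alt_row)
    MP_151d89_pr.H30W.lab_row μ hμ fun ν₁ h₁ ν₂ h₂ => hext ν₁ h₁ ν₂ h₂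

end Pool.Agent.S19173
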