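import Pool.Statements.S19253
import Pool.Agent.MP_3251d9_pr.H70.Final

set_option autoImplicit false
open Pool Pool.MP_3251d9_pr

namespace Pool.Agent.S19253

/-- There exist c>0 and k such that for every even n≥2, a uniformly random spanning tree of the n×n×n grid has, with probability at least c/n^k, an edge whose deletion leaves two components of exactly n³/2 vertices each. -/
theorem result :
    ∃ c : ℝ, 0 < c ∧ ∃ k : ℕ, ∀ n : ℕ, 2 ≤ n → Even n →
      c / (n : ℝ) ^ k ≤
        ((Set.ncard {T : SimpleGraph (Fin n × Fin n × Fin n) |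
            T ≤ SimpleGraph.boxProd (SimpleGraph.pathGraph n)
                  (SimpleGraph.boxProd (SimpleGraph.pathGraph n) (SimpleGraph.pathGraph n)) ∧
            T.IsTree ∧
            ∃ u v, T.Adj u v ∧
              2 * Set.ncard {w | (T.deleteEdges {s(u, v)}).Reachable u w} = n ^ 3} : ℝ) /
         (Set.ncard {T : SimpleGraph (Fin n × Fin n × Fin n) |
            T ≤ SimpleGraph.boxProd (SimpleGraph.pathGraph n)
                  (SimpleGraph.boxProd (SimpleGraph.pathGraph n) (SimpleGraph.pathGraph n)) ∧
            T.IsTree} : ℝ)) :=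
  Pool.Agent.MP_3251d9_pr.H70.main

end Pool.Agent.S19253
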