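import Pool.Statements.S19311
import Pool.Agent.MP_52a2fa_pr.H50.Final

set_option autoImplicit false
open Pool Pool.MP_52a2fa_pr

namespace Pool.Agent.S19311

/-- For every β>1 and every length law m on ℕ≥1 with m(ℓ) between cℓ^{-β} and Cℓ^{-β}: some intensity v>0 makes the Z^4 worm set (SRW ranges) a.s. non-percolating iff β≥3. -/
theorem result :
  ∀ (β : ℝ), 1 < β → ∀ (m : ℕ → ℝ), m 0 = 0 → (∀ ℓ, 0 ≤ m ℓ) → HasSum m 1 →
    (∃ c C : ℝ, 0 < c ∧ 0 < C ∧ ∀ ℓ : ℕ, 1 ≤ ℓ →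
        c * ((ℓ : ℝ) ^ (-β)) ≤ m ℓ ∧ m ℓ ≤ C * ((ℓ : ℝ) ^ (-β))) →
    ((∃ v : ℝ, 0 < v ∧
        ∀ (Ω : Type) [MeasurableSpace Ω] (P : MeasureTheory.Measure Ω)
          [MeasureTheory.IsProbabilityMeasure P]
          (ξ : (Fin 4 → ℤ) × Finset (Fin 4 → ℤ) → Ω → Bool),
          (∀ k, Measurable (ξ k)) →
          ProbabilityTheory.iIndepFun ξ P →
          (∀ k : (Fin 4 → ℤ) × Finset (Fin 4 → ℤ),
            P {ω | ξ k ω = true} =
              ENNReal.ofReal (1 - Real.exp (-(v * ∑' n : ℕ, m (n + 1) *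
                (((Finset.univ.filter (fun s : Fin n → Fin 4 × Bool =>
                    (Finset.range (n + 1)).image (fun t : ℕ =>
                      ∑ i ∈ Finset.univ.filter (fun i : Fin n => (i : ℕ) < t),
                        (Pi.single (s i).1 (if (s i).2 then (1 : ℤ) else -1) : Fin 4 → ℤ))
                    = k.2)).card : ℝ) / (8 : ℝ) ^ n))))) →
          P {ω | ∃ y : Fin 4 → ℤ,
              {z : Fin 4 → ℤ |
                (SimpleGraph.fromRel (fun a b : Fin 4 → ℤ =>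
                  (∃ x : Fin 4 → ℤ, ∃ A : Finset (Fin 4 → ℤ), ξ (x, A) ω = true ∧ a - x ∈ A) ∧
                  (∃ x : Fin 4 → ℤ, ∃ A : Finset (Fin 4 → ℤ), ξ (x, A) ω = true ∧ b - x ∈ A) ∧
                  ∑ j : Fin 4, |a j - b j| = 1)).Reachable y z}.Infinite} = 0)
     ↔ 3 ≤ β) := by
  intro β hβ m _ h0 h1 ⟨c, C, hc, hC, hm⟩
  simp only [Pool.Agent.MP_52a2fa_pr.H50.nu_eq, Pool.Agent.MP_52a2fa_pr.H50.perc_eq]
  constructor
  · rintro ⟨v, hv, h⟩
    by_contra h3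
    obtain ⟨Ω, mΩ, P, hP, ξ, hM⟩ := Pool.Agent.MP_52a2fa_pr.H50.exists_model h0 hv.le
    exact Pool.Agent.MP_52a2fa_pr.H50.supercritical h0 h1 hc (by linarith) (not_le.1 h3)
      (fun l hl => (hm l hl).1) hv hM (h Ω P ξ hM.meas hM.indep hM.law)
  · intro h3
    refine ⟨1 / (4 * (21 ^ 4 * 101 ^ 4) * (C * 10 ^ 20)), by positivity,
      fun Ω _ P _ ξ a1 a2 a3 => ?_⟩
    refine Pool.Agent.MP_52a2fa_pr.H50.subcritical h0 h1 hC (fun l hl => (hm l hl).2.trans ?_)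
      ⟨a1, a2, a3⟩
    have h4 : (1 : ℝ) ≤ l := by exact_mod_cast hl
    rw [div_eq_mul_inv, ← Real.rpow_natCast, ← Real.rpow_neg (by linarith)]
    refine mul_le_mul_of_nonneg_left (Real.rpow_le_rpow_of_exponent_le h4 ?_) hC.le
    push_cast; linarith

end Pool.Agent.S19311
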