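import Pool.Statements.S19455
import Pool.Agent.MP_887f27_pr.H69.Main
import Pool.Agent.MP_887f27_pr.H6.Junta
import Pool.Agent.MP_887f27_pr.H12.X1Russo
import Pool.Agent.MP_887f27_pr.H16.Select
import Pool.Agent.MP_887f27_pr.H39.Limit
import Pool.Agent.MP_887f27_pr.H44.Good
import Pool.Agent.MP_887f27_pr.H48.Abstract
import Pool.Agent.MP_887f27_pr.H51.Energy
import Pool.Agent.MP_887f27_pr.H53.Pattern
import Pool.Agent.MP_887f27_pr.H61.Param
import Pool.Agent.MP_887f27_pr.H80.Defect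
import Pool.Agent.MP_887f27_pr.H91.Bridge
import Pool.Agent.MP_887f27_pr.H96.Count
import Pool.Agent.MP_887f27_pr.H96.Struct

set_option autoImplicit false
open MeasureTheory ProbabilityTheory
open Pool Pool.MP_887f27_pr

namespace Pool.Agent.S19455

/-- On the 4-regular tree with i.i.d. initial spins (+1 w.p. p > 1/2), rate-one clocks and majority updates with fair-coin tie-breaks, almost surely every vertex's spin is eventually +1 forever. -/
theorem result :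
  ∀ (Ω : Type) [MeasurableSpace Ω] (P : Measure Ω) [IsProbabilityMeasure P]
    (p : ℝ)
    (X : FreeGroup (Fin 2) ⊕ (FreeGroup (Fin 2) × ℕ) ⊕ (FreeGroup (Fin 2) × ℕ) → Ω → ℝ)
    (T : FreeGroup (Fin 2) → ℕ → Ω → ℝ)
    (σ : FreeGroup (Fin 2) → ℝ → Ω → ℝ),
    1 / 2 < p → p ≤ 1 →
    (∀ i, Measurable (X i)) →
    iIndepFun X P →
    (∀ v, P {ω | X (Sum.inl v) ω = 1} = ENNReal.ofReal p ∧
          P {ω | X (Sum.inl v) ω = -1} = ENNReal.ofReal (1 - p)) →
    (∀ v n (t : ℝ), 0 ≤ t →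
          P {ω | t < X (Sum.inr (Sum.inl (v, n))) ω} = ENNReal.ofReal (Real.exp (-t))) →
    (∀ v n, P {ω | X (Sum.inr (Sum.inr (v, n))) ω = 1} = 1 / 2 ∧
          P {ω | X (Sum.inr (Sum.inr (v, n))) ω = -1} = 1 / 2) →
    (∀ v n ω, T v n ω = ∑ k ∈ Finset.range (n + 1), X (Sum.inr (Sum.inl (v, k))) ω) →
    (∀ᵐ ω ∂P, ∀ v,
      (∀ t : ℝ, 0 ≤ t → t < T v 0 ω → σ v t ω = X (Sum.inl v) ω) ∧
      (∀ (n : ℕ) (t : ℝ), T v n ω ≤ t → t < T v (n + 1) ω →
        σ v t ω =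
          (if 0 < ∑ i : Fin 2, (σ (v * FreeGroup.of i) (T v n ω) ω
                              + σ (v * (FreeGroup.of i)⁻¹) (T v n ω) ω) then 1
           else if ∑ i : Fin 2, (σ (v * FreeGroup.of i) (T v n ω) ω
                              + σ (v * (FreeGroup.of i)⁻¹) (T v n ω) ω) < 0 then -1
           else X (Sum.inr (Sum.inr (v, n))) ω))) →
    ∀ᵐ ω ∂P, ∀ v, ∃ t₀ : ℝ, ∀ t, t₀ ≤ t → σ v t ω = 1 := by
  intro Ω _ P _ p X T σ hp hp1
  exact Pool.Agent.MP_887f27_pr.H69.target_of Pool.Agent.MP_887f27_pr.H6.junta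
    Pool.Agent.MP_887f27_pr.H48.abstr Pool.Agent.MP_887f27_pr.H39.limit
    Pool.Agent.MP_887f27_pr.H96.count Pool.Agent.MP_887f27_pr.H16.select
    Pool.Agent.MP_887f27_pr.H96.s1 Pool.Agent.MP_887f27_pr.H96.s2
    Pool.Agent.MP_887f27_pr.H12.x1 Pool.Agent.MP_887f27_pr.H12.russo
    Pool.Agent.MP_887f27_pr.H44.glue_stmt Pool.Agent.MP_887f27_pr.H44.good
    Pool.Agent.MP_887f27_pr.H51.energy Pool.Agent.MP_887f27_pr.H53.pattern
    Pool.Agent.MP_887f27_pr.H80.defect Pool.Agent.MP_887f27_pr.H80.transfer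
    Pool.Agent.MP_887f27_pr.H61.expand Pool.Agent.MP_887f27_pr.H61.param
    Pool.Agent.MP_887f27_pr.H91.law Pool.Agent.MP_887f27_pr.H91.bridge hp hp1 Ω P X T σ

end Pool.Agent.S19455
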