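import Pool.Statements.S19752
import Pool.Agent.MP_f6b137_pr.H13.Stage

set_option autoImplicit false
open MeasureTheory ProbabilityTheory Filter Topology
open Pool Pool.MP_f6b137_pr

namespace Pool.Agent.S19752

/-- The negation of the preceding statement: For every finite absolutely continuous measure on ℝ with support [α,β], its orthonormal polynomials, and i.i.d. standard Gaussian coefficients, Var(number of real zeros of Σ_{k≤n} aₖpₖ)/n converges to a real constant. -/
theorem result :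
    ¬ (∀ (ν : Measure ℝ) (α β : ℝ), α < β → IsFiniteMeasure ν → ν ≪ volume →
    ν ((Set.Icc α β)ᶜ) = 0 →
    (∀ x ∈ Set.Icc α β, ∀ ε : ℝ, 0 < ε → 0 < ν (Set.Ioo (x - ε) (x + ε))) →
    ∀ (p : ℕ → Polynomial ℝ),
      (∀ k, (p k).natDegree = k) → (∀ k, 0 < (p k).leadingCoeff) →
      (∀ j k, ∫ x, (p j).eval x * (p k).eval x ∂ν = if j = k then (1 : ℝ) else 0) →
    ∀ (Ω : Type) [MeasurableSpace Ω] (P : Measure Ω), IsProbabilityMeasure P →
      ∀ a : ℕ → Ω → ℝ, (∀ k, P.map (a k) = gaussianReal 0 1) → iIndepFun a P →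
      ∃ c : ℝ, Tendsto
        (fun n : ℕ =>
          variance
            (fun ω => (((∑ k ∈ Finset.range (n + 1), Polynomial.C (a k ω) * p k).roots.toFinset.card : ℕ) : ℝ))
            P / (n : ℝ))
        atTop (𝓝 c)) := by
  intro h
  obtain ⟨ν, hν, hsupp, p, hp, hbig⟩ := Pool.Agent.MP_f6b137_pr.H13.exists_measure
  have hind : iIndepFun (fun (k : ℕ) (ω : ℕ → ℝ) => ω k)
      (Measure.infinitePi (fun _ : ℕ => gaussianReal 0 1)) :=
    iIndepFun_infinitePi (X := fun _ x => x) (fun _ => measurable_id)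
  obtain ⟨c, hc⟩ := h ν (-1) 1 (by norm_num) hν.fin hν.ac hν.supp hsupp p hp.deg hp.pos
    (fun j k => by
      rw [← hp.on j k, Pool.Agent.MP_f6b137_pr.H13.wform_apply,
        Pool.Agent.MP_f6b137_pr.H13.fnl_apply]
      simp)
    (ℕ → ℝ) (Measure.infinitePi (fun _ : ℕ => gaussianReal 0 1)) inferInstance
    (fun k ω => ω k) (fun k => Measure.infinitePi_map_eval _ k) hind
  obtain ⟨N, hN⟩ := eventually_atTop.1 (hc.eventually (gt_mem_nhds (lt_add_one c)))
  obtain ⟨m, hm⟩ := exists_nat_ge (c + 1)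
  obtain ⟨n, hn, hv⟩ := hbig (N + m + 1)
  have h1 := hN n (by omega)
  have hmeas : Measurable (fun (ω : ℕ → ℝ) (k : Fin (n + 1)) => ω k) := by fun_prop
  have hlaw : (Measure.infinitePi (fun _ : ℕ => gaussianReal 0 1)).map
      (fun ω => (WithLp.toLp 2 (fun k : Fin (n + 1) => ω k) : EuclideanSpace ℝ (Fin (n + 1))))
      = stdGaussian _ := by
    have h2 := (iIndepFun_iff_map_fun_eq_pi_map (fun k => (measurable_pi_apply _).aemeasurable)).1
      (hind.precomp (g := fun k : Fin (n + 1) => (k : ℕ)) Fin.val_injective)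
    simp only [Measure.infinitePi_map_eval] at h2
    rw [← map_pi_eq_stdGaussian, ← h2, Measure.map_map (by fun_prop) hmeas]
    rfl
  have h3 := hv (ℕ → ℝ) _ _ (by fun_prop) hlaw
  have h4 : ∀ ω : ℕ → ℝ, Pool.Agent.MP_f6b137_pr.H13.comb p (n + 1)
      (WithLp.toLp 2 (fun k : Fin (n + 1) => ω k))
      = ∑ k ∈ Finset.range (n + 1), Polynomial.C (ω k) * p k := by
    intro ω
    rw [Pool.Agent.MP_f6b137_pr.H13.comb_apply,
      ← Fin.sum_univ_eq_sum_range (fun k => Polynomial.C (ω k) * p k)]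
    simp [Polynomial.smul_eq_C_mul]
  simp only [h4] at h3
  have hn0 : (0 : ℝ) < n := by exact_mod_cast (by omega : 0 < n)
  rw [div_lt_iff₀ hn0] at h1
  have h5 := h3.trans_lt h1
  push_cast at h5
  have h6 : (0 : ℝ) ≤ N := Nat.cast_nonneg N
  nlinarith

end Pool.Agent.S19752
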